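import Pool.Agent.W2helper64.RK.Poly

set_option autoImplicit false
set_option linter.unusedSectionVars false

/-!
Systems of polynomials in short intervals, almost surely.
-/

namespace Pool.Agent.W2helper64.RK

open Finset Filter Topology Polynomial MeasureTheory Pool.Agent.W2helper64.RS

/-- the system `f` has no local obstruction with respect to the deleted classes `a` -/
def Free {g : ℕ} (a : (p : Nat.Primes) → ZMod (p : ℕ)) (f : Fin g → ℤ[X]) : Prop :=
  ∀ p : Nat.Primes, ∃ z : ℤ, ∀ i, (((f i).eval z : ℤ) : ZMod (p : ℕ)) ≠ a p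

theorem ae_poly (k : ℕ) (hk : 1 ≤ k) : ∃ C : ℝ, 2 ≤ C ∧ ∀ᵐ a ∂law, ∀ (g : ℕ) (f : Fin g → ℤ[X]),
    (∀ i, 0 < (f i).natDegree) → (∀ i, 0 < (f i).leadingCoeff) → ∑ i, (f i).natDegree ≤ k → Free a f →
      ∀ᶠ x : ℕ in atTop, ∃ n : ℕ, x < n ∧ (n : ℝ) ≤ x + Real.log x ^ C ∧
        ∀ i, ∃ r ∈ R a, (r : ℤ) = (f i).eval (n : ℤ) := by
  obtain ⟨C, hC, hE⟩ := law_engine k hk
  refine ⟨C, hC, ?_⟩
  set A : ℝ := 2 * (k + 1) with hA
  have hA1 : 1 ≤ A := by
    have : (0 : ℝ) ≤ k := Nat.cast_nonneg _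
    rw [hA]; linarith
  have hlog : Tendsto (fun x : ℕ => Real.log (x : ℝ)) atTop atTop :=
    Real.tendsto_log_atTop.comp tendsto_natCast_atTop_atTop
  rw [ae_all_iff]
  intro g
  rw [ae_all_iff]
  intro f
  by_cases hf : (∀ i, 0 < (f i).natDegree) ∧ (∀ i, 0 < (f i).leadingCoeff) ∧ ∑ i, (f i).natDegree ≤ k
  swap
  · refine Eventually.of_forall fun a h1 h2 h3 => ?_
    exact absurd ⟨h1, h2, h3⟩ hf
  obtain ⟨hf1, hf2, hf3⟩ := hf
  have hb := bc (fun x : ℕ => {a | Bad (PX (A * Real.log x)) (Phi f x) ⌊Real.log x ^ C⌋₊ a}) 1 (by norm_num) (by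
    filter_upwards [hlog.eventually (hE A hA1), eventually_ge_atTop 1] with x hx hx1
    have hx0 : (1 : ℝ) ≤ x := by exact_mod_cast hx1
    refine (hx (Phi f x) (fun p => adm_Phi hf1 hf3 x p)).trans ?_
    apply ENNReal.ofReal_le_ofReal
    have h1 : Real.exp (-(4 * Real.log x)) = 1 / (x : ℝ) ^ 4 := by
      rw [Real.exp_neg, one_div]
      congr 1
      rw [← Real.exp_log (by linarith : (0 : ℝ) < x), Real.log_exp, ← Real.exp_nat_mul]
      norm_num
    rw [h1, one_mul]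
    apply one_div_le_one_div_of_le (by positivity)
    exact pow_le_pow_right₀ hx0 (by norm_num))
  filter_upwards [hb] with a ha _ _ _ hfree
  -- the sizes
  have hsize : ∀ᶠ n : ℕ in atTop, ∀ i, 8 ≤ (f i).eval (n : ℤ) ∧ (f i).eval (n : ℤ) ≤ (n : ℤ) ^ (k + 1) := by
    rw [eventually_all]
    intro i
    refine poly_size (f i) (hf1 i) (hf2 i) (le_trans ?_ hf3)
    exact single_le_sum (f := fun i => (f i).natDegree) (fun _ _ => Nat.zero_le _) (Finset.mem_univ i)
  obtain ⟨N0, hN0⟩ := eventually_atTop.mp hsize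
  have hJx : ∀ᶠ x : ℕ in atTop, Real.log x ^ C ≤ (x : ℝ) := by
    have h1 := (isLittleO_log_rpow_rpow_atTop C (show (0 : ℝ) < 1 by norm_num)).bound
        (show (0 : ℝ) < 1 by norm_num)
    have h2 := tendsto_natCast_atTop_atTop.eventually h1
    filter_upwards [h2, eventually_ge_atTop 1] with x hx hx1
    have hl : 0 ≤ Real.log (x : ℝ) := Real.log_nonneg (by exact_mod_cast hx1)
    rw [Real.norm_of_nonneg (by positivity), Real.norm_of_nonneg (by positivity), Real.rpow_one, one_mul] at hx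
    exact hx
  filter_upwards [ha, hJx, eventually_ge_atTop N0, eventually_ge_atTop 2] with x hx hxJ hxN hx2
  have hx' : ¬ Bad (PX (A * Real.log x)) (Phi f x) ⌊Real.log x ^ C⌋₊ a := hx
  unfold Bad at hx'
  push Not at hx'
  obtain ⟨j, hj, hjn⟩ := hx'
  rw [Finset.mem_Icc] at hj
  have hx0 : (0 : ℝ) < x := by exact_mod_cast (by omega : 0 < x)
  have hl : 0 ≤ Real.log (x : ℝ) := Real.log_nonneg (by exact_mod_cast (by omega : 1 ≤ x))
  have hjle : (j : ℝ) ≤ Real.log x ^ C :=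
    (by exact_mod_cast hj.2 : (j : ℝ) ≤ ((⌊Real.log x ^ C⌋₊ : ℕ) : ℝ)).trans (Nat.floor_le (by positivity))
  refine ⟨x + j, by omega, by push_cast; linarith, fun i => ?_⟩
  obtain ⟨h8, hup⟩ := hN0 (x + j) (by omega) i
  refine ⟨((f i).eval ((x + j : ℕ) : ℤ)).toNat, ⟨?_, ?_⟩, Int.toNat_of_nonneg (by linarith)⟩
  · have e1 : Real.exp 2 ≤ 8 := by
      have : Real.exp 2 = Real.exp 1 * Real.exp 1 := by rw [← Real.exp_add]; norm_num
      rw [this]
      have := Real.exp_one_lt_d9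
      have := Real.exp_pos 1
      nlinarith
    refine e1.trans ?_
    have : 8 ≤ ((f i).eval ((x + j : ℕ) : ℤ)).toNat := by omega
    exact_mod_cast this
  · intro p hp heq
    have hcast : ((((f i).eval ((x + j : ℕ) : ℤ)).toNat : ℕ) : ZMod (p : ℕ)) =
        val f p i ((x + j : ℕ) : ZMod (p : ℕ)) := by
      rw [val_nat]
      have : (((((f i).eval ((x + j : ℕ) : ℤ)).toNat : ℕ) : ℤ) : ZMod (p : ℕ)) =
          (((f i).eval ((x + j : ℕ) : ℤ) : ℤ) : ZMod (p : ℕ)) := by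
        rw [Int.toNat_of_nonneg (by linarith)]
      rw [← this, Int.cast_natCast]
    have hmem : p ∈ PX (A * Real.log x) := by
      rw [mem_PX]
      refine hp.trans (mul_le_mul_of_nonneg_left ?_ (V_nonneg _))
      have hr : ((((f i).eval ((x + j : ℕ) : ℤ)).toNat : ℕ) : ℝ) ≤ (x : ℝ) ^ (2 * (k + 1)) := by
        have e1 : ((((f i).eval ((x + j : ℕ) : ℤ)).toNat : ℕ) : ℝ) =
            (((f i).eval ((x + j : ℕ) : ℤ) : ℤ) : ℝ) := by
          have : ((((((f i).eval ((x + j : ℕ) : ℤ)).toNat : ℕ) : ℤ)) : ℝ) =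
              (((f i).eval ((x + j : ℕ) : ℤ) : ℤ) : ℝ) := by
            rw [Int.toNat_of_nonneg (by linarith)]
          rw [← this, Int.cast_natCast]
        rw [e1]
        have e2 : (((f i).eval ((x + j : ℕ) : ℤ) : ℤ) : ℝ) ≤ ((x + j : ℕ) : ℝ) ^ (k + 1) := by
          exact_mod_cast hup
        refine e2.trans ?_
        rw [pow_mul]
        apply pow_le_pow_left₀ (Nat.cast_nonneg _)
        push_cast
        have : (2 : ℝ) ≤ x := by exact_mod_cast hx2
        nlinarith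
      have hpos : (0 : ℝ) < ((((f i).eval ((x + j : ℕ) : ℤ)).toNat : ℕ) : ℝ) := by
        have : 0 < ((f i).eval ((x + j : ℕ) : ℤ)).toNat := by omega
        exact_mod_cast this
      calc Real.log ((((f i).eval ((x + j : ℕ) : ℤ)).toNat : ℕ) : ℝ) ≤ Real.log ((x : ℝ) ^ (2 * (k + 1))) :=
            Real.log_le_log hpos hr
        _ = A * Real.log x := by rw [Real.log_pow, hA]; push_cast; ring
    refine hjn p hmem (mem_Phi.mpr ⟨⟨i, ?_⟩, ?_⟩)
    · rw [← hcast]; exact heq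
    · obtain ⟨z, hz⟩ := hfree p
      refine ⟨(z : ZMod (p : ℕ)), fun i => ?_⟩
      rw [val_int]
      exact hz i

end Pool.Agent.W2helper64.RK
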