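import Pool.Agent.W2helper64.RK.MainP

set_option autoImplicit false
set_option linter.unusedSectionVars false

/-!
Exact Cunningham chains in short intervals, almost surely.
-/

namespace Pool.Agent.W2helper64.RK

open Finset Filter Topology Polynomial MeasureTheory Pool.Agent.W2helper64.RS

theorem law_single (p : Nat.Primes) (r : ZMod (p : ℕ)) :
    law {a | a p = r} ≤ ENNReal.ofReal (1 / ((p : ℕ) : ℝ)) := by
  classical
  have h1 := law_cyl {p} (fun a => a ⟨p, mem_singleton_self p⟩ = r) (inst := Classical.decPred _)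
  have h2 : {a : (q : Nat.Primes) → ZMod (q : ℕ) | (fun a : (q : {x // x ∈ ({p} : Finset Nat.Primes)}) →
      ZMod ((q : Nat.Primes) : ℕ) => a ⟨p, mem_singleton_self p⟩ = r)
      ((({p} : Finset Nat.Primes)).restrict a)} = {a | a p = r} := rfl
  rw [h2] at h1
  rw [h1]
  apply ENNReal.ofReal_le_ofReal
  set i : {x // x ∈ ({p} : Finset Nat.Primes)} := ⟨p, mem_singleton_self p⟩ with hi
  rw [← avg_mm i]
  refine avg_le_const fun a => ?_
  unfold mm
  have hcard : (Fintype.card (ZMod ((i : Nat.Primes) : ℕ)) : ℝ) = ((p : ℕ) : ℝ) := by rw [ZMod.card]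
  rw [hcard]
  apply div_le_div_of_nonneg_right _ (Nat.cast_nonneg _)
  refine (sum_le_sum (g := fun x : ZMod ((i : Nat.Primes) : ℕ) => if x = r then (1 : ℝ) else 0)
    fun x _ => ?_).trans ?_
  · by_cases hx : x = r
    · rw [if_pos hx]
      dsimp only
      split_ifs <;> norm_num
    · rw [if_neg hx]
      dsimp only
      rw [if_neg]
      intro h
      apply hx
      rw [← h]
      exact (Function.update_self i x a).symm
  · rw [sum_ite_eq' univ r (fun _ => (1 : ℝ)), if_pos (mem_univ _)]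

/-- almost surely infinitely many classes differ from `-1` -/
theorem ae_neg : ∀ᵐ a ∂law, ∀ N : ℕ, ∃ p : Nat.Primes, N < (p : ℕ) ∧ a p ≠ -1 := by
  rw [ae_all_iff]
  intro N
  rw [ae_iff]
  have h1 : ∀ M : ℕ, law {a | ¬ ∃ p : Nat.Primes, N < (p : ℕ) ∧ a p ≠ -1} ≤
      ENNReal.ofReal (1 / ((M : ℝ) + 1)) := by
    intro M
    obtain ⟨q, hq1, hq2⟩ := Nat.exists_infinite_primes (N + M + 1)
    set p : Nat.Primes := ⟨q, hq2⟩ with hp
    have hpq : (p : ℕ) = q := rfl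
    calc law {a | ¬ ∃ p : Nat.Primes, N < (p : ℕ) ∧ a p ≠ -1} ≤ law {a | a p = -1} := by
          apply measure_mono
          intro a ha
          simp only [Set.mem_ofPred_eq, not_exists, not_and, not_not] at ha
          exact ha p (by omega)
      _ ≤ ENNReal.ofReal (1 / ((p : ℕ) : ℝ)) := law_single p _
      _ ≤ _ := by
          apply ENNReal.ofReal_le_ofReal
          apply one_div_le_one_div_of_le (by positivity)
          exact_mod_cast (by omega : M + 1 ≤ (p : ℕ))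
  have h2 : Tendsto (fun M : ℕ => ENNReal.ofReal (1 / ((M : ℝ) + 1))) atTop (𝓝 0) := by
    have := (ENNReal.continuous_ofReal.tendsto 0).comp (tendsto_one_div_add_atTop_nhds_zero_nat (𝕜 := ℝ))
    rwa [ENNReal.ofReal_zero] at this
  exact le_antisymm (ge_of_tendsto' h2 h1) bot_le

/-- distinct auxiliary primes -/
theorem aux_primes (a : (p : Nat.Primes) → ZMod (p : ℕ))
    (h : ∀ N : ℕ, ∃ p : Nat.Primes, N < (p : ℕ) ∧ a p ≠ -1) (B : ℕ) :
    ∃ q : ℕ → Nat.Primes, (∀ i, B < (q i : ℕ)) ∧ (∀ i, a (q i) ≠ -1) ∧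
      ∀ i j, (q i : ℕ) = (q j : ℕ) → i = j := by
  choose s hs using h
  obtain ⟨q, hq0, hqs⟩ : ∃ q : ℕ → Nat.Primes, q 0 = s B ∧ ∀ i : ℕ, q (i + 1) = s ((q i : Nat.Primes) : ℕ) :=
    ⟨fun i => Nat.rec (motive := fun _ => Nat.Primes) (s B) (fun _ p => s (p : ℕ)) i, rfl, fun i => rfl⟩
  have hmono : StrictMono fun i => (q i : ℕ) := strictMono_nat_of_lt_succ fun i => by
    rw [hqs]; exact (hs _).1
  refine ⟨q, fun i => ?_, fun i => ?_, fun i j hij => hmono.injective hij⟩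
  · have h1 : (q 0 : ℕ) ≤ (q i : ℕ) := hmono.monotone (Nat.zero_le i)
    have h2 := (hs B).1
    rw [hq0] at h1
    omega
  · cases i with
    | zero => rw [hq0]; exact (hs B).2
    | succ i => rw [hqs]; exact (hs _).2

theorem chain_of {k : ℕ} {E : ℝ} (hE : 2 ≤ E) (a : (p : Nat.Primes) → ZMod (p : ℕ))
    (ha : ∀ (g : ℕ) (f : Fin g → ℤ[X]),
    (∀ i, 0 < (f i).natDegree) → (∀ i, 0 < (f i).leadingCoeff) → ∑ i, (f i).natDegree ≤ k → Free a f →
      ∀ᶠ x : ℕ in atTop, ∃ n : ℕ, x < n ∧ (n : ℝ) ≤ x + Real.log x ^ E ∧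
        ∀ i, ∃ r ∈ R a, (r : ℤ) = (f i).eval (n : ℤ))
    (hneg : ∀ N : ℕ, ∃ p : Nat.Primes, N < (p : ℕ) ∧ a p ≠ -1) (h2 : a ⟨2, Nat.prime_two⟩ = 0)
    (H : Finset ℕ) (hk : H.card ≤ k) (M : ℕ) :
    ∀ᶠ x : ℕ in atTop, ∃ n : ℕ, x < n ∧ (n : ℝ) ≤ x + Real.log x ^ (E + 1) ∧
      (∀ t ∈ H, 2 ^ t * (n + 1) - 1 ∈ R a) ∧ ∀ t ≤ M, t ∉ H → 2 ^ t * (n + 1) - 1 ∉ R a := by
  classical
  obtain ⟨B, hBM, hBH⟩ : ∃ B : ℕ, M ≤ B ∧ ∀ t ∈ H, t ≤ B :=
    ⟨max M (H.sup id), le_max_left _ _, fun t ht => (le_sup (f := id) ht).trans (le_max_right _ _)⟩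
  obtain ⟨q, hqB, hqneg, hqinj⟩ := aux_primes a hneg (2 ^ B + 2)
  set T : Finset ℕ := range (M + 1) \ H with hT
  have hTM : ∀ t ∈ T, t ≤ M ∧ t ∉ H := by
    intro t ht
    rw [hT, Finset.mem_sdiff, mem_range] at ht
    exact ⟨by omega, ht.2⟩
  set Q : ℕ := ∏ t ∈ T, (q t : ℕ) with hQ
  have hQ0 : 0 < Q := prod_pos fun t _ => (q t).2.pos
  have hodd : ∀ t, (2 : ZMod (q t : ℕ)) ≠ 0 := by
    intro t h0
    have h1 : ((2 : ℕ) : ZMod (q t : ℕ)) = 0 := by exact_mod_cast h0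
    rw [ZMod.natCast_eq_zero_iff] at h1
    have h3 := Nat.le_of_dvd (by norm_num) h1
    have h4 := hqB t
    have h5 : 0 < 2 ^ B := Nat.two_pow_pos B
    omega
  -- the residue: `2 ^ t (n0 + 1) - 1 = a`
  obtain ⟨n0, hn0⟩ := Nat.chineseRemainderOfFinset
    (fun t : ℕ => ((a (q t) + 1) / 2 ^ t - 1).val) (fun t : ℕ => (q t : ℕ)) T
    (fun t _ => (q t).2.ne_zero) (by
      intro s _ t _ hst
      show Nat.Coprime _ _
      rw [Nat.coprime_primes (q s).2 (q t).2]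
      exact fun h => hst (hqinj s t h))
  have hn0' : ∀ t ∈ T, ((n0 : ℕ) : ZMod (q t : ℕ)) = (a (q t) + 1) / 2 ^ t - 1 := by
    intro t ht
    have h1 := (ZMod.natCast_eq_natCast_iff _ _ _).mpr (hn0 t ht)
    rw [h1, ZMod.natCast_val, ZMod.cast_id', id]
  -- the system
  set e := H.orderEmbOfFin rfl with he
  set f : Fin H.card → ℤ[X] := fun i => C ((2 ^ e i * Q : ℕ) : ℤ) * X + C ((2 : ℤ) ^ e i * (n0 + 1) - 1) with hf
  have hQz : ∀ i, ((2 ^ e i * Q : ℕ) : ℤ) ≠ 0 := by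
    intro i
    exact_mod_cast (Nat.mul_pos (Nat.two_pow_pos _) hQ0).ne'
  have hdeg : ∀ i, (f i).natDegree = 1 := fun i => natDegree_linear (hQz i)
  have hlead : ∀ i, (f i).leadingCoeff = ((2 ^ e i * Q : ℕ) : ℤ) := fun i => leadingCoeff_linear (hQz i)
  have hev : ∀ i (z : ℤ), (f i).eval z = 2 ^ e i * (Q * z + n0 + 1) - 1 := by
    intro i z
    simp only [hf]
    rw [eval_add, eval_mul, eval_C, eval_X, eval_C]
    push_cast
    ring
  have heH : ∀ i, e i ∈ H := fun i => orderEmbOfFin_mem H rfl i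
  have hfree : Free a f := by
    intro p
    have : NeZero (p : ℕ) := ⟨p.2.ne_zero⟩
    have : Fact ((p : ℕ).Prime) := ⟨p.2⟩
    by_cases hpQ : (p : ℕ) ∣ Q
    · obtain ⟨t, ht, hpt⟩ := (p.2.prime.dvd_finsetProd_iff _).mp hpQ
      have hpq : p = q t := Subtype.ext ((Nat.prime_dvd_prime_iff_eq p.2 (q t).2).mp hpt)
      refine ⟨0, fun i h => ?_⟩
      rw [hev] at h
      subst hpq
      push_cast at h
      rw [mul_zero, zero_add, hn0' t ht] at h
      have h2t : (2 : ZMod (q t : ℕ)) ^ t ≠ 0 := pow_ne_zero _ (hodd t)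
      have h3 : (a (q t) + 1) * (2 ^ e i - 2 ^ t) = 0 := by
        field_simp at h
        linear_combination h
      rcases mul_eq_zero.mp h3 with h4 | h4
      · exact hqneg t (eq_neg_of_add_eq_zero_left h4)
      · have h5 : ((2 ^ e i : ℕ) : ZMod (q t : ℕ)) = ((2 ^ t : ℕ) : ZMod (q t : ℕ)) := by
          push_cast
          linear_combination h4
        rw [ZMod.natCast_eq_natCast_iff] at h5
        have h6 : 2 ^ e i % (q t : ℕ) = 2 ^ t % (q t : ℕ) := h5
        have h7 : 2 ^ e i ≤ 2 ^ B := Nat.pow_le_pow_right (by norm_num) (hBH _ (heH i))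
        have h8 : 2 ^ t ≤ 2 ^ B := Nat.pow_le_pow_right (by norm_num) ((hTM t ht).1.trans hBM)
        have h9 := hqB t
        rw [Nat.mod_eq_of_lt (by omega), Nat.mod_eq_of_lt (by omega)] at h6
        have h10 := Nat.pow_right_injective (le_refl 2) h6
        exact (hTM t ht).2 (h10 ▸ heH i)
    · have hu : ((Q : ℕ) : ZMod (p : ℕ)) ≠ 0 := by
        intro h0
        exact hpQ ((ZMod.natCast_eq_zero_iff Q p).mp h0)
      -- a solution of `Q z + n0 = c`
      have hsol : ∀ c : ZMod (p : ℕ), ∃ z : ℤ, (Q : ZMod (p : ℕ)) * (z : ZMod (p : ℕ)) + n0 = c := by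
        intro c
        refine ⟨(((c - (n0 : ZMod (p : ℕ))) / ((Q : ℕ) : ZMod (p : ℕ))).val : ℤ), ?_⟩
        push_cast
        rw [ZMod.natCast_val, ZMod.cast_id', id, mul_div_cancel₀ _ hu]
        ring
      by_cases hp2 : (p : ℕ) = 2
      · have hpp : p = ⟨2, Nat.prime_two⟩ := Subtype.ext hp2
        obtain ⟨z, hz⟩ := hsol 1
        refine ⟨z, fun i h => ?_⟩
        rw [hev] at h
        subst hpp
        rw [h2] at h
        push_cast at h
        have h3 : (2 : ZMod ((⟨2, Nat.prime_two⟩ : Nat.Primes) : ℕ)) = 0 := by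
          have : ((2 : ℕ) : ZMod ((⟨2, Nat.prime_two⟩ : Nat.Primes) : ℕ)) = 0 :=
            (ZMod.natCast_eq_zero_iff _ _).mpr dvd_rfl
          exact_mod_cast this
        rw [hz] at h
        have h4 : (1 : ZMod ((⟨2, Nat.prime_two⟩ : Nat.Primes) : ℕ)) = 0 := by
          linear_combination (2 : ZMod ((⟨2, Nat.prime_two⟩ : Nat.Primes) : ℕ)) ^ e i * h3 - h
        exact one_ne_zero h4
      · have h20 : (2 : ZMod (p : ℕ)) ≠ 0 := by
          intro h0
          have h1 : ((2 : ℕ) : ZMod (p : ℕ)) = 0 := by exact_mod_cast h0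
          rw [ZMod.natCast_eq_zero_iff] at h1
          exact hp2 ((Nat.prime_dvd_prime_iff_eq p.2 Nat.prime_two).mp h1)
        by_cases hap : a p = -1
        · obtain ⟨z, hz⟩ := hsol 0
          refine ⟨z, fun i h => ?_⟩
          rw [hev, hap] at h
          push_cast at h
          rw [hz] at h
          have h3 : (2 : ZMod (p : ℕ)) ^ e i = 0 := by linear_combination h
          exact pow_ne_zero _ h20 h3
        · obtain ⟨z, hz⟩ := hsol (-1)
          refine ⟨z, fun i h => ?_⟩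
          rw [hev] at h
          push_cast at h
          rw [hz] at h
          apply hap
          linear_combination -h
  have h1 := ha H.card f (fun i => by rw [hdeg]; norm_num) (fun i => by
      rw [hlead]
      exact_mod_cast Nat.mul_pos (Nat.two_pow_pos _) hQ0)
    (by simp only [hdeg]; simpa using hk) hfree
  obtain ⟨N1, hN1⟩ := eventually_atTop.mp h1
  have hlog : Tendsto (fun x : ℕ => Real.log (x : ℝ)) atTop atTop :=
    Real.tendsto_log_atTop.comp tendsto_natCast_atTop_atTop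
  have hkill : ∀ᶠ x : ℕ in atTop, ∀ t ∈ T, 1 ≤ V (q t : ℕ) * Real.log x := by
    rw [Filter.eventually_all_finset]
    intro t _
    have hV : 0 < V (q t : ℕ) := by
      obtain ⟨c, hc, h⟩ := V_ge
      refine lt_of_lt_of_le ?_ (h _ (q t).2.two_le)
      exact div_pos hc (Real.log_pos (by exact_mod_cast (q t).2.one_lt))
    filter_upwards [hlog.eventually_ge_atTop (1 / V (q t : ℕ))] with x hx
    rw [div_le_iff₀ hV] at hx
    linarith
  filter_upwards [hkill, hlog.eventually_ge_atTop ((Q : ℝ) + n0 + 1), eventually_ge_atTop (N1 * Q),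
    eventually_ge_atTop Q, eventually_ge_atTop 3] with x hx1 hx2 hx3 hx4 hx5
  have hxQ : N1 ≤ x / Q := (Nat.le_div_iff_mul_le hQ0).mpr hx3
  obtain ⟨m, hm1, hm2, hm3⟩ := hN1 (x / Q) hxQ
  have hx0 : (0 : ℝ) < x := by exact_mod_cast (by omega : 0 < x)
  have hxQ1 : 1 ≤ x / Q := (Nat.one_le_div_iff hQ0).mpr hx4
  have hQr : (1 : ℝ) ≤ Q := by exact_mod_cast hQ0
  have hL1 : 1 ≤ Real.log x := by
    have : (0 : ℝ) ≤ n0 := Nat.cast_nonneg _
    linarith
  have hlow : x < Q * m + n0 := by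
    have e1 : x < Q * (x / Q + 1) := by
      have := Nat.lt_mul_div_succ x hQ0
      simpa using this
    have e2 : Q * (x / Q + 1) ≤ Q * m := Nat.mul_le_mul_left _ hm1
    omega
  refine ⟨Q * m + n0, hlow, ?_, fun t ht => ?_, fun t ht htH hR => ?_⟩
  · have e1 : Real.log ((x / Q : ℕ) : ℝ) ≤ Real.log x := by
      apply Real.log_le_log (by exact_mod_cast hxQ1)
      exact_mod_cast Nat.div_le_self x Q
    have e2 : Real.log ((x / Q : ℕ) : ℝ) ^ E ≤ Real.log x ^ E :=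
      Real.rpow_le_rpow (Real.log_nonneg (by exact_mod_cast hxQ1)) e1 (by linarith)
    have e3 : (Q : ℝ) * ((x / Q : ℕ) : ℝ) ≤ x := by
      have : Q * (x / Q) ≤ x := Nat.mul_div_le x Q
      exact_mod_cast this
    have e4 : Real.log x ^ (E + 1) = Real.log x ^ E * Real.log x := by
      rw [Real.rpow_add (by linarith), Real.rpow_one]
    have e5 : 1 ≤ Real.log x ^ E := Real.one_le_rpow hL1 (by linarith)
    push_cast
    rw [e4]
    have e6 : (Q : ℝ) * m ≤ Q * ((x / Q : ℕ) : ℝ) + Q * Real.log x ^ E := by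
      have := mul_le_mul_of_nonneg_left (hm2.trans (by linarith [e2] :
        ((x / Q : ℕ) : ℝ) + Real.log ((x / Q : ℕ) : ℝ) ^ E ≤ ((x / Q : ℕ) : ℝ) + Real.log x ^ E))
        (by linarith : (0 : ℝ) ≤ Q)
      linarith
    have e7 : (n0 : ℝ) ≤ Real.log x ^ E * n0 := le_mul_of_one_le_left (Nat.cast_nonneg _) e5
    nlinarith
  · have hmem : t ∈ Set.range e := by
      rw [he, range_orderEmbOfFin]
      exact ht
    obtain ⟨i, hi⟩ := hmem
    obtain ⟨r, hr, hre⟩ := hm3 i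
    rw [hev, hi] at hre
    have hpos : 1 ≤ 2 ^ t * (Q * m + n0 + 1) := Nat.mul_pos (Nat.two_pow_pos _) (by omega)
    have : r = 2 ^ t * (Q * m + n0 + 1) - 1 := by
      have h3 : ((2 ^ t * (Q * m + n0 + 1) - 1 : ℕ) : ℤ) = 2 ^ t * (Q * m + n0 + 1) - 1 := by
        rw [Nat.cast_sub hpos]; push_cast; ring
      have : (r : ℤ) = ((2 ^ t * (Q * m + n0 + 1) - 1 : ℕ) : ℤ) := by
        rw [hre, h3]
      exact_mod_cast this
    rwa [this] at hr
  · have htT : t ∈ T := by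
      rw [hT, Finset.mem_sdiff, mem_range]
      exact ⟨by omega, htH⟩
    have hpos : 1 ≤ 2 ^ t * (Q * m + n0 + 1) := Nat.mul_pos (Nat.two_pow_pos _) (by omega)
    refine hR.2 (q t) ?_ ?_
    · refine (hx1 t htT).trans (mul_le_mul_of_nonneg_left ?_ (V_nonneg _))
      apply Real.log_le_log hx0
      have h3 : Q * m + n0 + 1 ≤ 2 ^ t * (Q * m + n0 + 1) := Nat.le_mul_of_pos_left _ (Nat.two_pow_pos _)
      exact_mod_cast (by omega : x ≤ 2 ^ t * (Q * m + n0 + 1) - 1)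
    · have hQt : ((Q : ℕ) : ZMod (q t : ℕ)) = 0 := by
        rw [ZMod.natCast_eq_zero_iff]
        exact dvd_prod_of_mem _ htT
      have h2t : (2 : ZMod (q t : ℕ)) ^ t ≠ 0 := pow_ne_zero _ (hodd t)
      rw [Nat.cast_sub hpos]
      push_cast
      rw [hQt, hn0' t htT]
      field_simp
      ring

/-- exact chains in short intervals -/
theorem ae_chain (k : ℕ) : ∃ C : ℝ, 3 ≤ C ∧ ∀ᵐ a ∂law, a ⟨2, Nat.prime_two⟩ = 0 → ∀ H : Finset ℕ,
    H.card ≤ k → ∀ M : ℕ,
      ∀ᶠ x : ℕ in atTop, ∃ n : ℕ, x < n ∧ (n : ℝ) ≤ x + Real.log x ^ C ∧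
      (∀ t ∈ H, 2 ^ t * (n + 1) - 1 ∈ R a) ∧ ∀ t ≤ M, t ∉ H → 2 ^ t * (n + 1) - 1 ∉ R a := by
  obtain ⟨E, hE, h⟩ := ae_poly (k + 1) (by omega)
  refine ⟨E + 1, by linarith, ?_⟩
  filter_upwards [h, ae_neg] with a ha hneg h2 H hk M
  exact chain_of hE a ha hneg h2 H (by omega) M

end Pool.Agent.W2helper64.RK
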