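import Pool.Agent.W2helper64.RK.Num
import Pool.Agent.W2helper64.RS.Meas

set_option autoImplicit false
set_option linter.unusedSectionVars false

/-!
A long list of candidates contains a survivor, up to a tiny probability.
-/

namespace Pool.Agent.W2helper64.RK

open Finset Filter Topology Pool.Agent.W2helper64.RS

theorem fiberK {F : Finset Nat.Primes} {k : ℕ} {p : {x // x ∈ F}}
    {Φ : ℕ → Finset (ZMod ((p : Nat.Primes) : ℕ))} (h : Adm k p Φ) (J : ℕ)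
    (r : ZMod ((p : Nat.Primes) : ℕ)) :
    ((Icc 1 J).filter (fun j => r ∈ Φ j)).card ≤ k * (J / ((p : Nat.Primes) : ℕ) + 1) := by
  have hp : 0 < ((p : Nat.Primes) : ℕ) := (p : Nat.Primes).2.pos
  have h1 : ((Icc 1 J).filter (fun j => r ∈ Φ j)).card ≤
      (range (J / ((p : Nat.Primes) : ℕ) + 1) ×ˢ
        ((range ((p : Nat.Primes) : ℕ)).filter (fun j => r ∈ Φ j))).card := by
    refine card_le_card_of_injOn (fun j => (j / ((p : Nat.Primes) : ℕ), j % ((p : Nat.Primes) : ℕ))) ?_ ?_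
    · intro j hj
      rw [mem_coe, mem_filter, mem_Icc] at hj
      rw [mem_coe, mem_product, mem_range, mem_filter, mem_range]
      refine ⟨?_, Nat.mod_lt _ hp, ?_⟩
      · have := Nat.div_le_div_right (c := ((p : Nat.Primes) : ℕ)) hj.1.2
        show j / ((p : Nat.Primes) : ℕ) < _
        omega
      · show r ∈ Φ (j % ((p : Nat.Primes) : ℕ))
        rw [← h.per j]
        exact hj.2
    · intro i _ j _ hij
      have h2 := congrArg Prod.fst hij
      have h3 := congrArg Prod.snd hij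
      simp only at h2 h3
      rw [← Nat.div_add_mod i ((p : Nat.Primes) : ℕ), ← Nat.div_add_mod j ((p : Nat.Primes) : ℕ), h2, h3]
  refine h1.trans ?_
  rw [card_product, card_range, mul_comm]
  exact Nat.mul_le_mul_right _ (h.few r)

open Classical in
/-- the probability that all candidates up to `L ^ C` are killed -/
theorem engine (k : ℕ) (hk : 1 ≤ k) : ∃ C : ℝ, 2 ≤ C ∧ ∀ A : ℝ, 1 ≤ A → ∀ᶠ L : ℝ in atTop,
    ∀ Φ : (p : {x // x ∈ PX (A * L)}) → ℕ → Finset (ZMod ((p : Nat.Primes) : ℕ)),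
      (∀ p, Adm k p (Φ p)) →
      avg (fun a : (p : {x // x ∈ PX (A * L)}) → ZMod ((p : Nat.Primes) : ℕ) =>
        if (∀ j ∈ Icc 1 ⌊L ^ C⌋₊, ∃ p : {x // x ∈ PX (A * L)}, a p ∈ Φ p j) then (1 : ℝ) else 0) ≤
        Real.exp (-(4 * L)) := by
  obtain ⟨ζ, hζ0, hζ1, J0, hlow⟩ := small_lowK k hk
  have hk1 : (1 : ℝ) ≤ k := by exact_mod_cast hk
  set C : ℝ := 2 / ζ * (4 * k + 2) with hC
  have hC2 : 2 ≤ C := by
    rw [hC]
    have h1 : 2 ≤ 2 / ζ := by rw [le_div_iff₀ hζ0]; linarith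
    nlinarith
  refine ⟨C, hC2, fun A hA => ?_⟩
  have t1 : Tendsto (fun L : ℝ => L ^ C) atTop atTop := tendsto_rpow_atTop (by linarith)
  have t2 : Tendsto (fun L : ℝ => ((⌊L ^ C⌋₊ : ℕ) : ℝ) ^ ζ) atTop atTop :=
    (tendsto_rpow_atTop hζ0).comp (tendsto_natCast_atTop_atTop.comp (tendsto_nat_floor_atTop.comp t1))
  filter_upwards [t1.eventually_ge_atTop ((J0 : ℝ) + 2), t2.eventually_ge_atTop (4 * k : ℝ),
    eventually_ge_atTop (16 * k * A ^ (4 * k)), eventually_ge_atTop (1 : ℝ)] with L h1 h2 h3 h4 Φ hΦ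
  set J : ℕ := ⌊L ^ C⌋₊ with hJ
  have hJ0 : J0 ≤ J := Nat.le_floor (by linarith)
  have hL0 : 0 < L := by linarith
  have hJgt : L ^ C < J + 1 := Nat.lt_floor_add_one _
  have hJ2 : (1 : ℝ) ≤ J := by
    have : 1 ≤ J := Nat.le_floor (by
      have : (0 : ℝ) ≤ J0 := Nat.cast_nonneg _
      push_cast; linarith)
    exact_mod_cast this
  have hJhalf : L ^ C / 2 ≤ J := by linarith
  have hJpos : (0 : ℝ) < J := by linarith
  have hAL : 1 ≤ A * L := by nlinarith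
  set K0 : Finset {x // x ∈ PX (A * L)} := univ.filter fun p => (((p : Nat.Primes) : ℕ) : ℝ) < (J : ℝ) ^ ζ with hK0
  set K : Finset {x // x ∈ PX (A * L)} := univ.filter fun p => (J : ℝ) ^ ζ ≤ (((p : Nat.Primes) : ℕ) : ℝ) with hK
  have hdis : Disjoint K K0 := by
    rw [disjoint_left]
    intro p hp hq
    rw [hK, mem_filter] at hp
    rw [hK0, mem_filter] at hq
    linarith [hp.2, hq.2]
  have hcard : ∀ p : {x // x ∈ PX (A * L)}, (Fintype.card (ZMod ((p : Nat.Primes) : ℕ)) : ℝ) =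
      (((p : Nat.Primes) : ℕ) : ℝ) := fun p => by rw [ZMod.card]
  set D : ℝ := 2 * k * (J : ℝ) ^ (1 - ζ) with hD
  have hJζ : (1 : ℝ) ≤ (J : ℝ) ^ (1 - ζ) := Real.one_le_rpow hJ2 (by linarith)
  have hD0 : 0 < D := by positivity
  -- step 0
  have s0 : ∀ a : (p : {x // x ∈ PX (A * L)}) → ZMod ((p : Nat.Primes) : ℕ),
      (if (∀ j ∈ Icc 1 J, ∃ p : {x // x ∈ PX (A * L)}, a p ∈ Φ p j) then (1 : ℝ) else 0) ≤
        Real.exp (-(1 / D) * ((survK (Icc 1 J) Φ (K ∪ K0) a).card : ℝ)) := by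
    intro a
    split_ifs with h
    · have : survK (Icc 1 J) Φ (K ∪ K0) a = ∅ := by
        unfold survK
        rw [filter_eq_empty_iff]
        intro j hj hall
        obtain ⟨p, hp⟩ := h j hj
        refine hall p ?_ hp
        rw [mem_union, hK, hK0, mem_filter, mem_filter]
        rcases lt_or_ge (((p : Nat.Primes) : ℕ) : ℝ) ((J : ℝ) ^ ζ) with h1 | h1
        · exact Or.inr ⟨mem_univ _, h1⟩
        · exact Or.inl ⟨mem_univ _, h1⟩
      rw [this, card_empty, Nat.cast_zero, mul_zero, Real.exp_zero]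
    · exact (Real.exp_pos _).le
  -- step 1
  have s1 := phaseK (Icc 1 J) Φ K0 K hdis (k := k) (d := D) (fun p _ j _ => (hΦ p).card j) (fun p hp r => by
    rw [hK, mem_filter] at hp
    have hle : (((Icc 1 J).filter (fun j => r ∈ Φ p j)).card : ℝ) ≤
        ((k * (J / ((p : Nat.Primes) : ℕ) + 1) : ℕ) : ℝ) := by
      exact_mod_cast fiberK (hΦ p) J r
    refine hle.trans ?_
    have hp0 : (0 : ℝ) < (((p : Nat.Primes) : ℕ) : ℝ) := by exact_mod_cast (p : Nat.Primes).2.pos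
    push_cast
    have h5 : ((J / ((p : Nat.Primes) : ℕ) : ℕ) : ℝ) ≤ (J : ℝ) / ((p : Nat.Primes) : ℕ) := Nat.cast_div_le
    have h6 : (J : ℝ) / ((p : Nat.Primes) : ℕ) ≤ (J : ℝ) ^ (1 - ζ) := by
      rw [div_le_iff₀ hp0]
      have h7 : (J : ℝ) = (J : ℝ) ^ (1 - ζ) * (J : ℝ) ^ ζ := by
        rw [← Real.rpow_add hJpos]; simp
      calc (J : ℝ) = (J : ℝ) ^ (1 - ζ) * (J : ℝ) ^ ζ := h7
        _ ≤ _ := mul_le_mul_of_nonneg_left hp.2 (by positivity)
    rw [hD]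
    have : (k : ℝ) * (((J / ((p : Nat.Primes) : ℕ) : ℕ) : ℝ) + 1) ≤ k * (2 * (J : ℝ) ^ (1 - ζ)) :=
      mul_le_mul_of_nonneg_left (by linarith) (by linarith)
    linarith) (fun p hp => by
      rw [hK, mem_filter] at hp
      rw [hcard]
      linarith [hp.2]) (v := 1 / D) (by positivity) (by rw [one_div, inv_mul_cancel₀ hD0.ne'])
  set ρ : ℝ := ∏ i ∈ K, (1 - 2 * k / (Fintype.card (ZMod ((i : Nat.Primes) : ℕ)) : ℝ)) with hρ
  have hρ1 : (1 / (A * L)) ^ (4 * k) ≤ ρ := by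
    rw [hρ]
    have h5 := prod_PX hAL K
    have h6 : (1 / (A * L)) ^ (4 * k) ≤ ∏ p ∈ K, (1 - 1 / (((p : Nat.Primes) : ℕ) : ℝ)) ^ (4 * k) := by
      rw [prod_pow]
      exact pow_le_pow_left₀ (by positivity) h5 _
    refine h6.trans (prod_le_prod (fun p _ => pow_nonneg (fac_nonneg (p : Nat.Primes).2) _) fun p hp => ?_)
    rw [hK, mem_filter] at hp
    rw [hcard]
    have h7 := fac_pow (k := 2 * k) (p := ((p : Nat.Primes) : ℕ)) (by omega) (by
      have : (4 * k : ℝ) ≤ (((p : Nat.Primes) : ℕ) : ℝ) := h2.trans hp.2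
      have : 4 * k ≤ ((p : Nat.Primes) : ℕ) := by exact_mod_cast this
      omega)
    rw [show 2 * (2 * k) = 4 * k by ring] at h7
    refine h7.trans (le_of_eq ?_)
    push_cast
    ring
  -- step 2
  have s2 : ∀ a : (p : {x // x ∈ PX (A * L)}) → ZMod ((p : Nat.Primes) : ℕ),
      Real.exp (-(1 / D * ρ) * ((survK (Icc 1 J) Φ K0 a).card : ℝ)) ≤ Real.exp (-(4 * L)) := by
    intro a
    apply Real.exp_le_exp.mpr
    have h5 := hlow J hJ0 (PX (A * L)) K0 Φ (fun p hp => by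
      rw [hK0, mem_filter] at hp
      exact ⟨hΦ p, hp.2⟩) a
    have h6 : 1 / D * (1 / (A * L)) ^ (4 * k) * (J : ℝ) ^ (1 - ζ / 2) ≤
        1 / D * ρ * ((survK (Icc 1 J) Φ K0 a).card : ℝ) := by
      apply mul_le_mul _ h5 (by positivity)
      · have : 0 ≤ ρ := le_trans (by positivity) hρ1
        positivity
      · exact mul_le_mul_of_nonneg_left hρ1 (by positivity)
    have h7 : (J : ℝ) ^ (1 - ζ / 2) = (J : ℝ) ^ (1 - ζ) * (J : ℝ) ^ (ζ / 2) := by
      rw [← Real.rpow_add hJpos]; congr 1; ring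
    have h8 : L ^ (4 * k + 2) / 2 ≤ (J : ℝ) ^ (ζ / 2) := by
      calc L ^ (4 * k + 2) / 2 = (L ^ C) ^ (ζ / 2) * (1 / 2 : ℝ) := by
            rw [← Real.rpow_mul hL0.le, hC]
            have : 2 / ζ * (4 * (k : ℝ) + 2) * (ζ / 2) = ((4 * k + 2 : ℕ) : ℝ) := by
              push_cast
              field_simp
            rw [this, Real.rpow_natCast]
            ring
        _ ≤ (L ^ C) ^ (ζ / 2) * (1 / 2 : ℝ) ^ (ζ / 2) := by
            apply mul_le_mul_of_nonneg_left _ (by positivity)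
            calc (1 / 2 : ℝ) = (1 / 2 : ℝ) ^ (1 : ℝ) := (Real.rpow_one _).symm
              _ ≤ (1 / 2 : ℝ) ^ (ζ / 2) :=
                  Real.rpow_le_rpow_of_exponent_ge (by norm_num) (by norm_num) (by linarith)
        _ = (L ^ C / 2) ^ (ζ / 2) := by
            rw [div_eq_mul_one_div (L ^ C), Real.mul_rpow (by positivity) (by norm_num)]
        _ ≤ (J : ℝ) ^ (ζ / 2) := Real.rpow_le_rpow (by positivity) hJhalf (by positivity)
    have h9 : 4 * L ≤ 1 / D * (1 / (A * L)) ^ (4 * k) * (J : ℝ) ^ (1 - ζ / 2) := by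
      rw [h7, hD]
      have e1 : 1 / (2 * k * (J : ℝ) ^ (1 - ζ)) * (1 / (A * L)) ^ (4 * k) *
          ((J : ℝ) ^ (1 - ζ) * (J : ℝ) ^ (ζ / 2)) = (J : ℝ) ^ (ζ / 2) / (2 * k * (A * L) ^ (4 * k)) := by
        have : (J : ℝ) ^ (1 - ζ) ≠ 0 := (Real.rpow_pos_of_pos hJpos _).ne'
        rw [one_div_pow]
        field_simp
      rw [e1, le_div_iff₀ (by positivity)]
      refine le_trans ?_ h8
      rw [mul_pow]
      have e2 : L ^ (4 * k + 2) / 2 = L ^ (4 * k) * L * (L / 2) := by ring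
      rw [e2]
      calc 4 * L * (2 * k * (A ^ (4 * k) * L ^ (4 * k))) = L ^ (4 * k) * L * (8 * k * A ^ (4 * k)) := by ring
        _ ≤ L ^ (4 * k) * L * (L / 2) := by
          apply mul_le_mul_of_nonneg_left _ (by positivity)
          linarith
    linarith
  calc _ ≤ avg (fun a => Real.exp (-(1 / D) * ((survK (Icc 1 J) Φ (K ∪ K0) a).card : ℝ))) := avg_mono s0
    _ ≤ avg (fun a => Real.exp (-(1 / D * ρ) * ((survK (Icc 1 J) Φ K0 a).card : ℝ))) := s1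
    _ ≤ Real.exp (-(4 * L)) := avg_le_const s2

/-- the event that all candidates are killed -/
def Bad (F : Finset Nat.Primes) (Φ : (p : Nat.Primes) → ℕ → Finset (ZMod (p : ℕ))) (J : ℕ)
    (a : (p : Nat.Primes) → ZMod (p : ℕ)) : Prop := ∀ j ∈ Icc 1 J, ∃ p ∈ F, a p ∈ Φ p j

/-- the engine for the infinite product measure -/
theorem law_engine (k : ℕ) (hk : 1 ≤ k) : ∃ C : ℝ, 2 ≤ C ∧ ∀ A : ℝ, 1 ≤ A → ∀ᶠ L : ℝ in atTop,
    ∀ Φ : (p : Nat.Primes) → ℕ → Finset (ZMod (p : ℕ)),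
      (∀ (p : {x // x ∈ PX (A * L)}), Adm k p (Φ p)) →
      law {a | Bad (PX (A * L)) Φ ⌊L ^ C⌋₊ a} ≤ ENNReal.ofReal (Real.exp (-(4 * L))) := by
  classical
  obtain ⟨C, hC, h⟩ := engine k hk
  refine ⟨C, hC, fun A hA => ?_⟩
  filter_upwards [h A hA] with L hL Φ hΦ
  have h1 := law_cyl (PX (A * L)) (fun a => ∀ j ∈ Icc 1 ⌊L ^ C⌋₊, ∃ p : {x // x ∈ PX (A * L)},
    a p ∈ Φ p j) (inst := Classical.decPred _)
  have h2 : {a | Bad (PX (A * L)) Φ ⌊L ^ C⌋₊ a} = {a : (p : Nat.Primes) → ZMod (p : ℕ) |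
      (fun a : (p : {x // x ∈ PX (A * L)}) → ZMod ((p : Nat.Primes) : ℕ) => ∀ j ∈ Icc 1 ⌊L ^ C⌋₊,
        ∃ p : {x // x ∈ PX (A * L)}, a p ∈ Φ p j) ((PX (A * L)).restrict a)} := by
    ext a
    simp only [Set.mem_ofPred_eq]
    unfold Bad
    refine forall₂_congr fun j _ => ?_
    constructor
    · rintro ⟨p, hp, hpa⟩
      exact ⟨⟨p, hp⟩, hpa⟩
    · rintro ⟨⟨p, hp⟩, hpa⟩
      exact ⟨p, hp, hpa⟩
  rw [h2, h1]
  apply ENNReal.ofReal_le_ofReal
  refine le_trans (le_of_eq ?_) (hL (fun p => Φ p) hΦ)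
  refine congrArg avg ?_
  funext a
  by_cases h0 : ∀ j ∈ Icc 1 ⌊L ^ C⌋₊, ∃ p : {x // x ∈ PX (A * L)}, a p ∈ Φ p j
  · rw [if_pos h0, if_pos h0]
  · rw [if_neg h0, if_neg h0]

end Pool.Agent.W2helper64.RK
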