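import Pool.Agent.W2helper64.RK.MainP

set_option autoImplicit false
set_option linter.unusedSectionVars false

/-!
Exact patterns in short intervals, almost surely.
-/

namespace Pool.Agent.W2helper64.RK

open Finset Filter Topology Polynomial MeasureTheory Pool.Agent.W2helper64.RS

/-- `H` does not contain all residue classes modulo any prime -/
def Admissible (H : Finset ℕ) : Prop := ∀ p : ℕ, p.Prime → ∃ z : ℕ, ∀ h ∈ H, ¬ h ≡ z [MOD p]

/-- auxiliary primes, larger than `M` -/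
noncomputable def qq (M t : ℕ) : Nat.Primes := ⟨Nat.nth Nat.Prime (M + t), Nat.prime_nth_prime _⟩

theorem qq_gt (M t : ℕ) : M < (qq M t : ℕ) := by
  have := Nat.add_two_le_nth_prime (M + t)
  show M < Nat.nth Nat.Prime (M + t)
  omega

theorem qq_inj (M : ℕ) {s t : ℕ} (h : (qq M s : ℕ) = (qq M t : ℕ)) : s = t := by
  have h1 : Nat.nth Nat.Prime (M + s) = Nat.nth Nat.Prime (M + t) := h
  have := Nat.nth_injective Nat.infinite_setOfPred_prime h1
  omega

theorem exact_of {k : ℕ} {E : ℝ} (hE : 2 ≤ E) (a : (p : Nat.Primes) → ZMod (p : ℕ))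
    (ha : ∀ (g : ℕ) (f : Fin g → ℤ[X]),
    (∀ i, 0 < (f i).natDegree) → (∀ i, 0 < (f i).leadingCoeff) → ∑ i, (f i).natDegree ≤ k → Free a f →
      ∀ᶠ x : ℕ in atTop, ∃ n : ℕ, x < n ∧ (n : ℝ) ≤ x + Real.log x ^ E ∧
        ∀ i, ∃ r ∈ R a, (r : ℤ) = (f i).eval (n : ℤ))
    (H : Finset ℕ) (hk : H.card ≤ k) (hH : Admissible H) (M : ℕ) (hM : ∀ h ∈ H, h ≤ M) :
    ∀ᶠ x : ℕ in atTop, ∃ n : ℕ, x < n ∧ (n : ℝ) ≤ x + Real.log x ^ (E + 1) ∧
      ∀ t ≤ M, (n + t ∈ R a ↔ t ∈ H) := by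
  classical
  set T : Finset ℕ := range (M + 1) \ H with hT
  have hTM : ∀ t ∈ T, t ≤ M ∧ t ∉ H := by
    intro t ht
    rw [hT, Finset.mem_sdiff, mem_range] at ht
    exact ⟨by omega, ht.2⟩
  set Q : ℕ := ∏ t ∈ T, (qq M t : ℕ) with hQ
  have hQ0 : 0 < Q := prod_pos fun t _ => (qq M t).2.pos
  -- the residue
  obtain ⟨n0, hn0⟩ := Nat.chineseRemainderOfFinset
    (fun t : ℕ => (a (qq M t) - ((t : ℕ) : ZMod (qq M t : ℕ))).val) (fun t : ℕ => (qq M t : ℕ)) T
    (fun t _ => (qq M t).2.ne_zero) (by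
      intro s _ t _ hst
      show Nat.Coprime _ _
      rw [Nat.coprime_primes (qq M s).2 (qq M t).2]
      exact fun h => hst (qq_inj M h))
  have hn0' : ∀ t ∈ T, ((n0 : ℕ) : ZMod (qq M t : ℕ)) = a (qq M t) - ((t : ℕ) : ZMod (qq M t : ℕ)) := by
    intro t ht
    have h1 := (ZMod.natCast_eq_natCast_iff _ _ _).mpr (hn0 t ht)
    rw [h1, ZMod.natCast_val, ZMod.cast_id', id]
  -- the system
  set e := H.orderEmbOfFin rfl with he
  set f : Fin H.card → ℤ[X] := fun i => C (Q : ℤ) * X + C ((n0 + e i : ℕ) : ℤ) with hf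
  have hQz : (Q : ℤ) ≠ 0 := by exact_mod_cast hQ0.ne'
  have hdeg : ∀ i, (f i).natDegree = 1 := fun i => natDegree_linear hQz
  have hlead : ∀ i, (f i).leadingCoeff = (Q : ℤ) := fun i => leadingCoeff_linear hQz
  have hev : ∀ i (z : ℤ), (f i).eval z = Q * z + (n0 + e i : ℕ) := by
    intro i z
    simp only [hf]
    rw [eval_add, eval_mul, eval_C, eval_X, eval_C]
  have heH : ∀ i, e i ∈ H := fun i => orderEmbOfFin_mem H rfl i
  have hfree : Free a f := by
    intro p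
    have : NeZero (p : ℕ) := ⟨p.2.ne_zero⟩
    have : Fact ((p : ℕ).Prime) := ⟨p.2⟩
    by_cases hpQ : (p : ℕ) ∣ Q
    · obtain ⟨t, ht, hpt⟩ := (p.2.prime.dvd_finset_prod_iff _).mp hpQ
      have hpq : p = qq M t := Subtype.ext ((Nat.prime_dvd_prime_iff_eq p.2 (qq M t).2).mp hpt)
      refine ⟨0, fun i h => ?_⟩
      rw [hev] at h
      subst hpq
      push_cast at h
      rw [mul_zero, zero_add, hn0' t ht] at h
      have h1 : ((e i : ℕ) : ZMod (qq M t : ℕ)) = ((t : ℕ) : ZMod (qq M t : ℕ)) := by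
        linear_combination h
      rw [ZMod.natCast_eq_natCast_iff] at h1
      have h2 : e i % (qq M t : ℕ) = t % (qq M t : ℕ) := h1
      have h3 := hM _ (heH i)
      have h4 := (hTM t ht).1
      have h5 := qq_gt M t
      rw [Nat.mod_eq_of_lt (by omega), Nat.mod_eq_of_lt (by omega)] at h2
      exact (hTM t ht).2 (h2 ▸ heH i)
    · obtain ⟨z0, hz0⟩ := hH p p.2
      have hu : ((Q : ℕ) : ZMod (p : ℕ)) ≠ 0 := by
        intro h0
        exact hpQ ((ZMod.natCast_eq_zero_iff Q p).mp h0)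
      refine ⟨(((a p - (z0 : ZMod (p : ℕ)) - (n0 : ZMod (p : ℕ))) / ((Q : ℕ) : ZMod (p : ℕ))).val : ℤ),
        fun i h => ?_⟩
      rw [hev] at h
      push_cast at h
      rw [ZMod.natCast_val, ZMod.cast_id', id, mul_div_cancel₀ _ hu] at h
      have h1 : ((e i : ℕ) : ZMod (p : ℕ)) = ((z0 : ℕ) : ZMod (p : ℕ)) := by
        linear_combination h
      rw [ZMod.natCast_eq_natCast_iff] at h1
      exact hz0 _ (heH i) h1
  have h1 := ha H.card f (fun i => by rw [hdeg]; norm_num) (fun i => by rw [hlead]; exact_mod_cast hQ0)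
    (by simp only [hdeg]; simpa using hk) hfree
  obtain ⟨N1, hN1⟩ := eventually_atTop.mp h1
  have hlog : Tendsto (fun x : ℕ => Real.log (x : ℝ)) atTop atTop :=
    Real.tendsto_log_atTop.comp tendsto_natCast_atTop_atTop
  have hkill : ∀ᶠ x : ℕ in atTop, ∀ t ∈ T, 1 ≤ V (qq M t : ℕ) * Real.log x := by
    rw [Filter.eventually_all_finset]
    intro t _
    have hV : 0 < V (qq M t : ℕ) := by
      obtain ⟨c, hc, h⟩ := V_ge
      refine lt_of_lt_of_le ?_ (h _ (qq M t).2.two_le)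
      exact div_pos hc (Real.log_pos (by exact_mod_cast (qq M t).2.one_lt))
    filter_upwards [hlog.eventually_ge_atTop (1 / V (qq M t : ℕ))] with x hx
    rw [div_le_iff₀ hV] at hx
    linarith
  filter_upwards [hkill, hlog.eventually_ge_atTop ((Q : ℝ) + n0 + 1), eventually_ge_atTop (N1 * Q),
    eventually_ge_atTop Q, eventually_ge_atTop 3] with x hx1 hx2 hx3 hx4 hx5
  have hxQ : N1 ≤ x / Q := (Nat.le_div_iff_mul_le hQ0).mpr hx3
  obtain ⟨m, hm1, hm2, hm3⟩ := hN1 (x / Q) hxQ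
  have hx0 : (0 : ℝ) < x := by exact_mod_cast (by omega : 0 < x)
  have hxQ1 : 1 ≤ x / Q := (Nat.one_le_div_iff hQ0).mpr hx4
  have hQr : (1 : ℝ) ≤ Q := by exact_mod_cast hQ0
  have hL1 : 1 ≤ Real.log x := by
    have : (0 : ℝ) ≤ n0 := Nat.cast_nonneg _
    linarith
  have hlow : x < Q * m + n0 := by
    have e1 : x < Q * (x / Q + 1) := by
      have := Nat.lt_mul_div_succ x hQ0
      simpa using this
    have e2 : Q * (x / Q + 1) ≤ Q * m := Nat.mul_le_mul_left _ hm1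
    omega
  refine ⟨Q * m + n0, hlow, ?_, fun t ht => ⟨fun h => ?_, fun h => ?_⟩⟩
  · have e1 : Real.log ((x / Q : ℕ) : ℝ) ≤ Real.log x := by
      apply Real.log_le_log (by exact_mod_cast hxQ1)
      exact_mod_cast Nat.div_le_self x Q
    have e2 : Real.log ((x / Q : ℕ) : ℝ) ^ E ≤ Real.log x ^ E :=
      Real.rpow_le_rpow (Real.log_nonneg (by exact_mod_cast hxQ1)) e1 (by linarith)
    have e3 : (Q : ℝ) * ((x / Q : ℕ) : ℝ) ≤ x := by
      have : Q * (x / Q) ≤ x := Nat.mul_div_le x Q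
      exact_mod_cast this
    have e4 : Real.log x ^ (E + 1) = Real.log x ^ E * Real.log x := by
      rw [Real.rpow_add (by linarith), Real.rpow_one]
    have e5 : 1 ≤ Real.log x ^ E := Real.one_le_rpow hL1 (by linarith)
    push_cast
    rw [e4]
    have e6 : (Q : ℝ) * m ≤ Q * ((x / Q : ℕ) : ℝ) + Q * Real.log x ^ E := by
      have := mul_le_mul_of_nonneg_left (hm2.trans (by linarith [e2] :
        ((x / Q : ℕ) : ℝ) + Real.log ((x / Q : ℕ) : ℝ) ^ E ≤ ((x / Q : ℕ) : ℝ) + Real.log x ^ E))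
        (by linarith : (0 : ℝ) ≤ Q)
      linarith
    have e7 : (n0 : ℝ) ≤ Real.log x ^ E * n0 := le_mul_of_one_le_left (Nat.cast_nonneg _) e5
    nlinarith
  · by_contra hcon
    have htT : t ∈ T := by
      rw [hT, Finset.mem_sdiff, mem_range]
      exact ⟨by omega, hcon⟩
    refine h.2 (qq M t) ?_ ?_
    · refine (hx1 t htT).trans (mul_le_mul_of_nonneg_left ?_ (V_nonneg _))
      apply Real.log_le_log hx0
      exact_mod_cast (by omega : x ≤ Q * m + n0 + t)
    · have hQt : ((Q : ℕ) : ZMod (qq M t : ℕ)) = 0 := by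
        rw [ZMod.natCast_eq_zero_iff]
        exact dvd_prod_of_mem _ htT
      push_cast
      rw [hQt, hn0' t htT]
      ring
  · have hmem : t ∈ Set.range e := by
      rw [he, range_orderEmbOfFin]
      exact h
    obtain ⟨i, hi⟩ := hmem
    obtain ⟨r, hr, hre⟩ := hm3 i
    rw [hev, hi] at hre
    have : r = Q * m + n0 + t := by
      have : (r : ℤ) = ((Q * m + n0 + t : ℕ) : ℤ) := by
        rw [hre]; push_cast; ring
      exact_mod_cast this
    rwa [this] at hr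

/-- exact patterns in short intervals -/
theorem ae_exact (k : ℕ) : ∃ C : ℝ, 3 ≤ C ∧ ∀ᵐ a ∂law, ∀ H : Finset ℕ, H.card ≤ k → Admissible H →
    ∀ M : ℕ, (∀ h ∈ H, h ≤ M) →
      ∀ᶠ x : ℕ in atTop, ∃ n : ℕ, x < n ∧ (n : ℝ) ≤ x + Real.log x ^ C ∧
        ∀ t ≤ M, (n + t ∈ R a ↔ t ∈ H) := by
  obtain ⟨C, hC, h⟩ := ae_poly (k + 1) (by omega)
  refine ⟨C + 1, by linarith, ?_⟩
  filter_upwards [h] with a ha H hk hH M hM
  exact exact_of hC a ha H (by omega) hH M hM

end Pool.Agent.W2helper64.RK
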