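import Pool.Agent.W2helper64.RK.Engine
import Pool.Agent.W2helper64.RS.Main

set_option autoImplicit false
set_option linter.unusedSectionVars false

/-!
Sums of two elements of the random set.
-/

namespace Pool.Agent.W2helper64.RK

open Finset Filter Topology MeasureTheory Pool.Agent.W2helper64.RS

/-- the dangerous classes for the summand `y + j` of `N` -/
def PhiG (N y : ℕ) (p : Nat.Primes) (j : ℕ) : Finset (ZMod (p : ℕ)) :=
  {((y + j : ℕ) : ZMod (p : ℕ)), (N : ZMod (p : ℕ)) - ((y + j : ℕ) : ZMod (p : ℕ))}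

theorem natCast_inj {p : ℕ} {j l : ℕ} (hj : j < p) (hl : l < p) (h : (j : ZMod p) = (l : ZMod p)) : j = l := by
  rw [ZMod.natCast_eq_natCast_iff] at h
  have h3 : j % p = l % p := h
  rwa [Nat.mod_eq_of_lt hj, Nat.mod_eq_of_lt hl] at h3

theorem card_class (p : Nat.Primes) (c : ZMod (p : ℕ)) :
    ((range (p : ℕ)).filter (fun j : ℕ => (j : ZMod (p : ℕ)) = c)).card ≤ 1 := by
  rw [card_le_one]
  intro i hi j hj
  rw [Finset.mem_filter, mem_range] at hi hj
  exact natCast_inj hi.1 hj.1 (hi.2.trans hj.2.symm)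

theorem adm_PhiG {N : ℕ} (hN : Even N) (y : ℕ) {F : Finset Nat.Primes} (p : {x // x ∈ F}) :
    Adm 2 p (PhiG N y p) := by
  classical
  have : NeZero ((p : Nat.Primes) : ℕ) := ⟨(p : Nat.Primes).2.ne_zero⟩
  have hsub : ∀ r : ZMod ((p : Nat.Primes) : ℕ),
      (range ((p : Nat.Primes) : ℕ)).filter (fun j => r ∈ PhiG N y p j) ⊆
        (range ((p : Nat.Primes) : ℕ)).filter (fun j : ℕ => (j : ZMod ((p : Nat.Primes) : ℕ)) = r - y) ∪
        (range ((p : Nat.Primes) : ℕ)).filter (fun j : ℕ => (j : ZMod ((p : Nat.Primes) : ℕ)) = N - r - y) := by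
    intro r j hj
    rw [Finset.mem_filter] at hj
    obtain ⟨hj1, hj2⟩ := hj
    unfold PhiG at hj2
    rw [mem_insert, mem_singleton] at hj2
    rw [mem_union, Finset.mem_filter, Finset.mem_filter]
    rcases hj2 with h | h
    · left
      refine ⟨hj1, ?_⟩
      rw [h]; push_cast; ring
    · right
      refine ⟨hj1, ?_⟩
      rw [h]; push_cast; ring
  have hcard2 : ∀ r : ZMod ((p : Nat.Primes) : ℕ),
      ((range ((p : Nat.Primes) : ℕ)).filter (fun j => r ∈ PhiG N y p j)).card ≤ 2 := by
    intro r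
    refine (card_le_card (hsub r)).trans ((card_union_le _ _).trans ?_)
    have h1 := card_class (p : Nat.Primes) (r - y)
    have h2 := card_class (p : Nat.Primes) (N - r - y)
    omega
  refine ⟨fun j => ?_, fun j => card_le_two, hcard2, fun r => ?_⟩
  · unfold PhiG
    have : ((y + j : ℕ) : ZMod ((p : Nat.Primes) : ℕ)) =
        ((y + j % ((p : Nat.Primes) : ℕ) : ℕ) : ZMod ((p : Nat.Primes) : ℕ)) := by
      push_cast
      rw [ZMod.natCast_mod]
    rw [this]
  · by_contra hcon
    push Not at hcon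
    have hall : (range ((p : Nat.Primes) : ℕ)).filter (fun j => r ∈ PhiG N y p j) =
        range ((p : Nat.Primes) : ℕ) := by
      rw [filter_eq_self]
      exact fun j _ => hcon j
    have h1 := hcard2 r
    rw [hall, card_range] at h1
    have hp2 : ((p : Nat.Primes) : ℕ) = 2 := le_antisymm h1 (p : Nat.Primes).2.two_le
    -- both conditions coincide
    have hN0 : ((N : ℕ) : ZMod ((p : Nat.Primes) : ℕ)) = 0 := by
      rw [ZMod.natCast_eq_zero_iff, hp2]
      exact hN.two_dvd
    have hneg : ∀ z : ZMod ((p : Nat.Primes) : ℕ), -z = z := by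
      intro z
      have h2 : (2 : ZMod ((p : Nat.Primes) : ℕ)) = 0 := by
        have : ((2 : ℕ) : ZMod ((p : Nat.Primes) : ℕ)) = 0 := by
          rw [ZMod.natCast_eq_zero_iff, hp2]
        exact_mod_cast this
      linear_combination (-z) * h2
    have h3 : ∀ j, ((y + j : ℕ) : ZMod ((p : Nat.Primes) : ℕ)) = r := by
      intro j
      have h4 := hcon j
      unfold PhiG at h4
      rw [mem_insert, mem_singleton, hN0, zero_sub, hneg, or_self] at h4
      exact h4.symm
    have h5 := h3 0
    have h6 := h3 1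
    rw [← h5] at h6
    have h7 : (1 : ZMod ((p : Nat.Primes) : ℕ)) = 0 := by
      push_cast at h6
      linear_combination h6
    have : ((1 : ℕ) : ZMod ((p : Nat.Primes) : ℕ)) = 0 := by exact_mod_cast h7
    rw [ZMod.natCast_eq_zero_iff, hp2] at this
    omega

theorem ae_gold : ∃ C : ℝ, 2 ≤ C ∧ ∀ᵐ a ∂law, ∀ᶠ N : ℕ in atTop, Even N → ∀ y : ℕ, 7 ≤ y →
    (y : ℝ) + Real.log N ^ C + 8 ≤ N →
      ∃ r : ℕ, y < r ∧ (r : ℝ) ≤ y + Real.log N ^ C ∧ r ∈ R a ∧ N - r ∈ R a := by
  obtain ⟨C, hC, hE⟩ := law_engine 2 (by norm_num)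
  refine ⟨C, hC, ?_⟩
  have hlog : Tendsto (fun x : ℕ => Real.log (x : ℝ)) atTop atTop :=
    Real.tendsto_log_atTop.comp tendsto_natCast_atTop_atTop
  have hb := bc (fun N : ℕ => ⋃ y ∈ (if Even N then range (N + 1) else ∅ : Finset ℕ),
      {a | Bad (PX (1 * Real.log N)) (PhiG N y) ⌊Real.log N ^ C⌋₊ a}) 2 (by norm_num) (by
    filter_upwards [hlog.eventually (hE 1 le_rfl), eventually_ge_atTop 1] with N hx hN1
    have hN0 : (1 : ℝ) ≤ N := by exact_mod_cast hN1
    by_cases hev : Even N
    · simp only [if_pos hev]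
      calc law (⋃ y ∈ range (N + 1), {a | Bad (PX (1 * Real.log N)) (PhiG N y) ⌊Real.log N ^ C⌋₊ a})
          ≤ ∑ y ∈ range (N + 1), law {a | Bad (PX (1 * Real.log N)) (PhiG N y) ⌊Real.log N ^ C⌋₊ a} :=
            measure_biUnion_finset_le _ _
        _ ≤ ∑ y ∈ range (N + 1), ENNReal.ofReal (Real.exp (-(4 * Real.log N))) :=
            Finset.sum_le_sum fun y _ => hx (PhiG N y) (fun p => adm_PhiG hev y p)
        _ = ENNReal.ofReal ((N + 1 : ℕ) * Real.exp (-(4 * Real.log N))) := by
            rw [sum_const, nsmul_eq_mul, card_range,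
              ENNReal.ofReal_mul (by positivity), ENNReal.ofReal_natCast]
        _ ≤ _ := by
            apply ENNReal.ofReal_le_ofReal
            have h1 : Real.exp (-(4 * Real.log N)) = 1 / (N : ℝ) ^ 4 := by
              rw [Real.exp_neg, one_div]
              congr 1
              rw [← Real.exp_log (by linarith : (0 : ℝ) < N), Real.log_exp, ← Real.exp_nat_mul]
              norm_num
            rw [h1]
            push_cast
            rw [mul_one_div, mul_one_div, div_le_div_iff₀ (by positivity) (by positivity)]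
            have h2 : ((N : ℝ) + 1) ≤ 2 * N := by linarith
            have h3 : (N : ℝ) ≤ N ^ 2 := by nlinarith
            calc ((N : ℝ) + 1) * N ^ 2 ≤ 2 * N * N ^ 2 := mul_le_mul_of_nonneg_right h2 (by positivity)
              _ ≤ 2 * N ^ 2 * N ^ 2 := by
                  apply mul_le_mul_of_nonneg_right _ (by positivity)
                  linarith
              _ = 2 * N ^ 4 := by ring
    · simp only [if_neg hev]
      simp)
  filter_upwards [hb] with a ha
  filter_upwards [ha, eventually_ge_atTop 3] with N hN hN3 hev y hy7 hyN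
  have hnb : ¬ Bad (PX (1 * Real.log N)) (PhiG N y) ⌊Real.log N ^ C⌋₊ a := by
    intro hbad
    apply hN
    simp only [Set.mem_iUnion, exists_prop]
    refine ⟨y, ?_, hbad⟩
    rw [if_pos hev, mem_range]
    have hl : 0 ≤ Real.log (N : ℝ) := Real.log_nonneg (by exact_mod_cast (by omega : 1 ≤ N))
    have : 0 ≤ Real.log (N : ℝ) ^ C := Real.rpow_nonneg hl _
    have : (y : ℝ) ≤ N := by linarith
    have : y ≤ N := by exact_mod_cast this
    omega
  unfold Bad at hnb
  push Not at hnb
  obtain ⟨j, hj, hjn⟩ := hnb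
  rw [Finset.mem_Icc] at hj
  have hl : 0 ≤ Real.log (N : ℝ) := Real.log_nonneg (by exact_mod_cast (by omega : 1 ≤ N))
  have hjle : (j : ℝ) ≤ Real.log N ^ C :=
    (by exact_mod_cast hj.2 : (j : ℝ) ≤ ((⌊Real.log N ^ C⌋₊ : ℕ) : ℝ)).trans (Nat.floor_le (by positivity))
  have hrN : y + j + 8 ≤ N := by
    have : ((y + j + 8 : ℕ) : ℝ) ≤ N := by push_cast; linarith
    exact_mod_cast this
  have e1 : Real.exp 2 ≤ 8 := by
    have : Real.exp 2 = Real.exp 1 * Real.exp 1 := by rw [← Real.exp_add]; norm_num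
    rw [this]
    have := Real.exp_one_lt_d9
    have := Real.exp_pos 1
    nlinarith
  have hmem : ∀ s : ℕ, 8 ≤ s → s ≤ N → ∀ p : Nat.Primes, 1 ≤ V (p : ℕ) * Real.log s →
      p ∈ PX (1 * Real.log N) := by
    intro s hs hsN p hp
    rw [mem_PX, one_mul]
    refine hp.trans (mul_le_mul_of_nonneg_left ?_ (V_nonneg _))
    exact Real.log_le_log (by exact_mod_cast (by omega : 0 < s)) (by exact_mod_cast hsN)
  refine ⟨y + j, by omega, by push_cast; linarith, ⟨?_, fun p hp heq => ?_⟩, ⟨?_, fun p hp heq => ?_⟩⟩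
  · exact e1.trans (by exact_mod_cast (by omega : 8 ≤ y + j))
  · refine hjn p (hmem _ (by omega) (by omega) p hp) ?_
    unfold PhiG
    rw [← heq]
    exact mem_insert_self _ _
  · exact e1.trans (by exact_mod_cast (by omega : 8 ≤ N - (y + j)))
  · refine hjn p (hmem _ (by omega) (by omega) p hp) ?_
    unfold PhiG
    rw [← heq, Nat.cast_sub (by omega)]
    exact mem_insert_of_mem (mem_singleton_self _)

end Pool.Agent.W2helper64.RK
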