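import Pool.Agent.W2helper64.RK.Exact

set_option autoImplicit false
set_option linter.unusedSectionVars false

/-!
Exact patterns at indices in a given class, in short intervals, almost surely.
-/

namespace Pool.Agent.W2helper64.RK

open Finset Filter Topology MeasureTheory Pool.Agent.W2helper64.RS

/-- the number of elements of `S` up to `r` -/
noncomputable def idx (S : Set ℕ) (r : ℕ) : ℕ := (S ∩ Set.Iic r).ncard

/-- one block: the pattern `H` and `w` further elements `P, 2 P, ..., w P` -/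
def blk (H : Finset ℕ) (P w : ℕ) : Finset ℕ := H ∪ (Icc 1 w).image fun s => P * s

/-- `N` blocks -/
def big (H : Finset ℕ) (P w N : ℕ) : Finset ℕ :=
  (range N ×ˢ blk H P w).image fun x : ℕ × ℕ => P * (w + 1) * x.1 + x.2

variable {H : Finset ℕ} {P w N M : ℕ}

theorem blk_lt (hM : ∀ h ∈ H, h ≤ M) (hP : M < P) {u : ℕ} (hu : u ∈ blk H P w) : u < P * (w + 1) := by
  unfold blk at hu
  rw [mem_union, mem_image] at hu
  rcases hu with hu | ⟨s, hs, rfl⟩
  · have := hM u hu
    nlinarith
  · rw [mem_Icc] at hs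
    apply Nat.mul_lt_mul_of_pos_left _ (by omega)
    omega

theorem blk_card (hM : ∀ h ∈ H, h ≤ M) (hP : M < P) : (blk H P w).card = H.card + w := by
  unfold blk
  rw [card_union_of_disjoint, card_image_of_injective, Nat.card_Icc]
  · omega
  · intro s t hst
    exact Nat.eq_of_mul_eq_mul_left (by omega) hst
  · rw [disjoint_left]
    intro u hu hu'
    rw [mem_image] at hu'
    obtain ⟨s, hs, rfl⟩ := hu'
    rw [mem_Icc] at hs
    have := hM _ hu
    nlinarith

theorem decomp {m i i' u u' : ℕ} (hu : u < m) (hu' : u' < m) (h : m * i + u = m * i' + u') :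
    i = i' ∧ u = u' := by
  have h1 : (m * i + u) / m = i := by
    rw [Nat.mul_add_div (by omega), Nat.div_eq_of_lt hu, add_zero]
  have h2 : (m * i' + u') / m = i' := by
    rw [Nat.mul_add_div (by omega), Nat.div_eq_of_lt hu', add_zero]
  have h3 : i = i' := by rw [← h1, ← h2, h]
  subst h3
  exact ⟨rfl, by omega⟩

theorem big_inj (hM : ∀ h ∈ H, h ≤ M) (hP : M < P) :
    Set.InjOn (fun x : ℕ × ℕ => P * (w + 1) * x.1 + x.2) (range N ×ˢ blk H P w : Finset (ℕ × ℕ)) := by
  rintro ⟨i, u⟩ h ⟨i', u'⟩ h' heq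
  rw [mem_coe, mem_product] at h h'
  have := decomp (blk_lt hM hP h.2) (blk_lt hM hP h'.2) heq
  exact Prod.ext this.1 this.2

theorem big_card (hM : ∀ h ∈ H, h ≤ M) (hP : M < P) : (big H P w N).card = N * (H.card + w) := by
  unfold big
  rw [card_image_of_injOn (big_inj hM hP), card_product, card_range, blk_card hM hP]

/-- the elements up to the beginning of a block -/
theorem big_count (hM : ∀ h ∈ H, h ≤ M) (hP : M < P) (h0 : 0 ∈ H) {i : ℕ} (hi : i < N) :
    ((big H P w N).filter fun g => g ≤ P * (w + 1) * i).card = i * (H.card + w) + 1 := by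
  have hPw : 0 < P * (w + 1) := Nat.mul_pos (by omega) (by omega)
  have h1 : (big H P w N).filter (fun g => g ≤ P * (w + 1) * i) =
      insert (P * (w + 1) * i) (big H P w i) := by
    ext g
    rw [mem_filter, mem_insert]
    constructor
    · rintro ⟨hg, hle⟩
      unfold big at hg
      rw [mem_image] at hg
      obtain ⟨⟨i', u⟩, hx, rfl⟩ := hg
      rw [mem_product, mem_range] at hx
      obtain ⟨hx1, hx2⟩ := hx
      simp only at hx1 hx2 hle ⊢
      rcases Nat.lt_or_ge i' i with h | h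
      · right
        unfold big
        rw [mem_image]
        exact ⟨(i', u), by rw [mem_product, mem_range]; exact ⟨h, hx2⟩, rfl⟩
      · left
        have h2 : P * (w + 1) * i ≤ P * (w + 1) * i' := Nat.mul_le_mul_left _ h
        omega
    · rintro (rfl | hg)
      · refine ⟨?_, le_rfl⟩
        unfold big
        rw [mem_image]
        refine ⟨(i, 0), ?_, by simp⟩
        rw [mem_product, mem_range]
        exact ⟨hi, mem_union_left _ h0⟩
      · unfold big at hg
        rw [mem_image] at hg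
        obtain ⟨⟨i', u⟩, hx, rfl⟩ := hg
        rw [mem_product, mem_range] at hx
        obtain ⟨hx1, hx2⟩ := hx
        simp only at hx1 hx2 ⊢
        refine ⟨?_, ?_⟩
        · unfold big
          rw [mem_image]
          exact ⟨(i', u), by rw [mem_product, mem_range]; exact ⟨by omega, hx2⟩, rfl⟩
        · have h2 := blk_lt hM hP hx2
          have h3 : P * (w + 1) * (i' + 1) ≤ P * (w + 1) * i := Nat.mul_le_mul_left _ hx1
          rw [mul_add, mul_one] at h3
          omega
  rw [h1, card_insert_of_notMem, big_card hM hP]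
  intro hg
  unfold big at hg
  rw [mem_image] at hg
  obtain ⟨⟨i', u⟩, hx, hxe⟩ := hg
  rw [mem_product, mem_range] at hx
  have h2 := decomp (blk_lt hM hP hx.2) hPw (hxe.trans (add_zero _).symm)
  have h3 := hx.1
  simp only at h2 h3
  omega

/-- the elements in the window at the beginning of a block -/
theorem big_window (hM : ∀ h ∈ H, h ≤ M) (hP : M < P) {i : ℕ} (hi : i < N) {t : ℕ} (ht : t ≤ M) :
    P * (w + 1) * i + t ∈ big H P w N ↔ t ∈ H := by
  have hPw : M < P * (w + 1) := lt_of_lt_of_le hP (Nat.le_mul_of_pos_right _ (by omega))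
  unfold big
  rw [mem_image]
  constructor
  · rintro ⟨⟨i', u⟩, hx, hxe⟩
    rw [mem_product] at hx
    have h2 := decomp (blk_lt hM hP hx.2) (by omega : t < P * (w + 1)) hxe
    have h3 := hx.2
    simp only at h2 h3
    rw [h2.2] at h3
    unfold blk at h3
    rw [mem_union, mem_image] at h3
    rcases h3 with h3 | ⟨s, hs, hse⟩
    · exact h3
    · exfalso
      rw [mem_Icc] at hs
      have : P * 1 ≤ P * s := Nat.mul_le_mul_left _ hs.1
      omega
  · intro h
    refine ⟨(i, t), ?_, rfl⟩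
    rw [mem_product, mem_range]
    exact ⟨hi, mem_union_left _ h⟩

theorem big_le (hM : ∀ h ∈ H, h ≤ M) (hP : M < P) {g : ℕ} (hg : g ∈ big H P w N) : g ≤ P * (w + 1) * N := by
  unfold big at hg
  rw [mem_image] at hg
  obtain ⟨⟨i', u⟩, hx, rfl⟩ := hg
  rw [mem_product, mem_range] at hx
  have h2 := blk_lt hM hP hx.2
  have h3 : P * (w + 1) * (i' + 1) ≤ P * (w + 1) * N := Nat.mul_le_mul_left _ hx.1
  rw [mul_add, mul_one] at h3
  simp only at h2 ⊢
  omega

theorem big_adm (hH : Admissible H) (h0 : 0 ∈ H) (hM : ∀ h ∈ H, h ≤ M) (hP : M < P)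
    (hdiv : ∀ p : ℕ, p.Prime → p ≤ N * (H.card + w) → p ∣ P) : Admissible (big H P w N) := by
  intro p hp
  by_cases hle : p ≤ N * (H.card + w)
  · obtain ⟨z, hz⟩ := hH p hp
    refine ⟨z, fun g hg hgz => ?_⟩
    have hpP := hdiv p hp hle
    unfold big at hg
    rw [mem_image] at hg
    obtain ⟨⟨i', u⟩, hx, rfl⟩ := hg
    rw [mem_product] at hx
    have hx2 := hx.2
    unfold blk at hx2
    rw [mem_union, mem_image] at hx2
    simp only at hgz
    have h1 : P * (w + 1) * i' + u ≡ u [MOD p] := by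
      have : P * (w + 1) * i' ≡ 0 [MOD p] :=
        Nat.modEq_zero_iff_dvd.mpr (dvd_mul_of_dvd_left (dvd_mul_of_dvd_left hpP _) _)
      simpa using this.add_right u
    have h2 : u ≡ z [MOD p] := h1.symm.trans hgz
    rcases hx2 with h | ⟨s, -, hs⟩
    · exact hz u h h2
    · simp only at hs
      have h3 : u ≡ 0 [MOD p] := Nat.modEq_zero_iff_dvd.mpr (by rw [← hs]; exact dvd_mul_of_dvd_left hpP _)
      exact hz 0 h0 (h3.symm.trans h2)
  · -- few elements
    have h1 : ((big H P w N).image fun g => g % p).card < (range p).card := by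
      rw [card_range]
      refine card_image_le.trans_lt ?_
      rw [big_card hM hP]
      omega
    obtain ⟨z, hz, hzn⟩ := exists_mem_notMem_of_card_lt_card h1
    refine ⟨z, fun g hg hgz => hzn ?_⟩
    rw [mem_image]
    refine ⟨g, hg, ?_⟩
    rw [mem_range] at hz
    have h2 : g % p = z % p := hgz
    rw [h2, Nat.mod_eq_of_lt hz]

/-- counting the elements of a set with an exact pattern -/
theorem idx_of_pattern (S : Set ℕ) (G : Finset ℕ) (n K g : ℕ) (hgK : g ≤ K)
    (h : ∀ t ≤ K, (n + t ∈ S ↔ t ∈ G)) :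
    idx S (n + g) = (S ∩ Set.Iio n).ncard + (G.filter fun t => t ≤ g).card := by
  unfold idx
  have h1 : S ∩ Set.Iic (n + g) = (S ∩ Set.Iio n) ∪ ((fun t => n + t) '' ((G.filter fun t => t ≤ g : Finset ℕ) : Set ℕ)) := by
    ext r
    simp only [Set.mem_inter_iff, Set.mem_Iic, Set.mem_union, Set.mem_Iio, Set.mem_image, mem_coe, mem_filter]
    constructor
    · rintro ⟨hr, hle⟩
      rcases Nat.lt_or_ge r n with h2 | h2
      · exact Or.inl ⟨hr, h2⟩
      · right
        refine ⟨r - n, ⟨?_, by omega⟩, by omega⟩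
        rw [← h (r - n) (by omega)]
        have : n + (r - n) = r := by omega
        rwa [this]
    · rintro (⟨hr, hlt⟩ | ⟨t, ⟨ht, hle⟩, rfl⟩)
      · exact ⟨hr, by omega⟩
      · exact ⟨(h t (by omega)).mpr ht, by omega⟩
  rw [h1, Set.ncard_union_eq]
  · congr 1
    rw [Set.ncard_image_of_injective _ (fun s t hst => by simpa using hst), Set.ncard_coe_finset]
  · rw [Set.disjoint_left]
    rintro r ⟨-, hr⟩ ⟨t, -, rfl⟩
    rw [Set.mem_Iio] at hr
    simp only at hr
    omega

/-- exact patterns at indices in a given class -/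
theorem ae_index (k N : ℕ) (hN : 1 ≤ N) : ∃ C : ℝ, 4 ≤ C ∧ ∀ᵐ a ∂law, ∀ H : Finset ℕ, H.card ≤ k →
    Admissible H → 0 ∈ H → ∀ M : ℕ, (∀ h ∈ H, h ≤ M) → ∀ c : ℕ,
      ∀ᶠ x : ℕ in atTop, ∃ r : ℕ, x < r ∧ (r : ℝ) ≤ x + Real.log x ^ C ∧
        (∀ t ≤ M, (r + t ∈ R a ↔ t ∈ H)) ∧ idx (R a) r ≡ c [MOD N] := by
  obtain ⟨C, hC, h⟩ := ae_exact (N * (k + ((N - 1) * k + 1)))
  refine ⟨C + 1, by linarith, ?_⟩
  filter_upwards [h] with a ha H hk hH h0 M hM c
  set w : ℕ := (N - 1) * H.card + 1 with hw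
  set P : ℕ := (M + 1) * (N * (H.card + w)).factorial with hP
  have hMP : M < P := by
    have := Nat.factorial_pos (N * (H.card + w))
    rw [hP]
    nlinarith
  have hB : H.card + w = N * H.card + 1 := by
    obtain ⟨q, rfl⟩ : ∃ q, N = q + 1 := ⟨N - 1, by omega⟩
    rw [hw, Nat.add_sub_cancel]
    ring
  have hcard : (big H P w N).card ≤ N * (k + ((N - 1) * k + 1)) := by
    rw [big_card hM hMP, hw]
    apply Nat.mul_le_mul_left
    have := Nat.mul_le_mul_left (N - 1) hk
    omega
  have hadm : Admissible (big H P w N) := big_adm hH h0 hM hMP (by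
    intro p hp hple
    rw [hP]
    exact dvd_mul_of_dvd_right (Nat.dvd_factorial hp.pos hple) _)
  set K : ℕ := P * (w + 1) * N + M with hK
  have h1 := ha (big H P w N) hcard hadm K (fun g hg => (big_le hM hMP hg).trans (by omega))
  have hlog : Tendsto (fun x : ℕ => Real.log (x : ℝ)) atTop atTop :=
    Real.tendsto_log_atTop.comp tendsto_natCast_atTop_atTop
  filter_upwards [h1, hlog.eventually_ge_atTop ((K : ℝ) + 1)] with x hx hxl
  obtain ⟨n, hn1, hn2, hn3⟩ := hx
  -- the block
  set I0 : ℕ := (R a ∩ Set.Iio n).ncard with hI0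
  obtain ⟨i, hi, hic⟩ : ∃ i < N, I0 + i + 1 ≡ c [MOD N] := by
    refine ⟨(c + N * (I0 + 1) - (I0 + 1)) % N, Nat.mod_lt _ (by omega), ?_⟩
    have hle : I0 + 1 ≤ N * (I0 + 1) := Nat.le_mul_of_pos_left _ (by omega)
    have h2 : I0 + (c + N * (I0 + 1) - (I0 + 1)) % N + 1 ≡
        I0 + (c + N * (I0 + 1) - (I0 + 1)) + 1 [MOD N] :=
      ((Nat.mod_modEq _ N).add_left I0).add_right 1
    refine h2.trans ?_
    have h3 : I0 + (c + N * (I0 + 1) - (I0 + 1)) + 1 = c + N * (I0 + 1) := by omega
    rw [h3]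
    show (c + N * (I0 + 1)) % N = c % N
    exact Nat.add_mul_mod_self_left _ _ _
  set s : ℕ := P * (w + 1) * i with hs
  have hsK : s + M ≤ K := by
    rw [hs, hK]
    have : P * (w + 1) * i ≤ P * (w + 1) * N := Nat.mul_le_mul_left _ hi.le
    omega
  refine ⟨n + s, by omega, ?_, fun t ht => ?_, ?_⟩
  · have e1 : (s : ℝ) ≤ K := by exact_mod_cast (by omega : s ≤ K)
    have hK0 : (0 : ℝ) ≤ K := Nat.cast_nonneg _
    have e2 : Real.log x ^ (C + 1) = Real.log x ^ C * Real.log x := by
      rw [Real.rpow_add (by linarith), Real.rpow_one]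
    have e3 : 1 ≤ Real.log x ^ C := Real.one_le_rpow (by linarith) (by linarith)
    push_cast
    rw [e2]
    nlinarith
  · rw [show n + s + t = n + (s + t) by ring, hn3 (s + t) (by omega), hs, big_window hM hMP hi ht]
  · rw [idx_of_pattern (R a) (big H P w N) n K s (by omega) hn3, hs, big_count hM hMP h0 hi, hB]
    refine Nat.ModEq.trans ?_ hic
    have h2 : I0 + (i * (N * H.card + 1) + 1) = I0 + i + 1 + N * (i * H.card) := by ring
    rw [h2]
    show (I0 + i + 1 + N * (i * H.card)) % N = (I0 + i + 1) % N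
    exact Nat.add_mul_mod_self_left _ _ _

end Pool.Agent.W2helper64.RK
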