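import Pool.Agent.W2helper64.RK.Step
import Pool.Agent.W2helper64.RS.Num
import Pool.Agent.H373R2.T7.Fund

set_option autoImplicit false
set_option linter.unusedSectionVars false

/-!
The small primes: a lower bound for the number of survivors, for arbitrary classes.
-/

namespace Pool.Agent.W2helper64.RK

open Finset Filter Topology Pool.Agent.W2helper64.RS

theorem mf' {p : ℕ → Prop} {inst : DecidablePred p} {s : Finset ℕ} {a : ℕ} :
    a ∈ @Finset.filter ℕ p inst s ↔ a ∈ s ∧ p a := Finset.mem_filter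

theorem fac_pow {k p : ℕ} (hk : 1 ≤ k) (hp : 2 * k ≤ p) : (1 - 1 / (p : ℝ)) ^ (2 * k) ≤ 1 - k / (p : ℝ) := by
  have hp0 : (0 : ℝ) < p := by exact_mod_cast (by omega : 0 < p)
  have hkp : (2 * k : ℝ) ≤ p := by exact_mod_cast hp
  have hk0 : (0 : ℝ) < k := by exact_mod_cast hk
  have h1 : (1 - 1 / (p : ℝ)) ^ (2 * k) ≤ Real.exp (-(2 * (k / (p : ℝ)))) := by
    have h2 : 1 - 1 / (p : ℝ) ≤ Real.exp (-(1 / (p : ℝ))) := by
      have := Real.add_one_le_exp (-(1 / (p : ℝ)))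
      linarith
    have h3 : 0 ≤ 1 - 1 / (p : ℝ) := by
      rw [sub_nonneg, div_le_one hp0]
      have : (1 : ℝ) ≤ k := by exact_mod_cast hk
      linarith
    calc (1 - 1 / (p : ℝ)) ^ (2 * k) ≤ (Real.exp (-(1 / (p : ℝ)))) ^ (2 * k) := pow_le_pow_left₀ h3 h2 _
      _ = Real.exp (-(2 * (k / (p : ℝ)))) := by
        rw [← Real.exp_nat_mul]
        congr 1
        push_cast
        ring
  refine h1.trans ?_
  set x : ℝ := k / (p : ℝ) with hx
  have hx0 : 0 ≤ x := by positivity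
  have hx1 : x ≤ 1 / 2 := by
    rw [hx, div_le_div_iff₀ hp0 (by norm_num)]
    linarith
  exact one_sub_ge hx0 hx1

theorem prod_low (k : ℕ) (hk : 1 ≤ k) : ∃ c : ℝ, 0 < c ∧ ∀ y : ℕ, 2 ≤ y → ∀ ν : ℕ → ℕ,
    (∀ p, p.Prime → ν p ≤ k ∧ ν p < p) →
      c / Real.log y ^ (2 * k) ≤ ∏ p ∈ Pool.Agent.H373R2.T7.pz y, (1 - (ν p : ℝ) / p) := by
  classical
  obtain ⟨c, hc, hV⟩ := V_ge
  have hk0 : (0 : ℝ) < k := by exact_mod_cast hk
  refine ⟨(1 / (2 * k : ℝ)) ^ (2 * k) * c ^ (2 * k), by positivity, fun y hy ν hν => ?_⟩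
  have hly : 0 < Real.log y := Real.log_pos (by exact_mod_cast (by omega : 1 < y))
  set g : ℕ → ℝ := fun p => if p < 2 * k then 1 / (2 * k : ℝ) else 1 with hg
  have h2k : (1 : ℝ) ≤ 2 * k := by
    have : (1 : ℝ) ≤ k := by exact_mod_cast hk
    linarith
  have hfac : ∀ p ∈ Pool.Agent.H373R2.T7.pz y, g p * (1 - 1 / (p : ℝ)) ^ (2 * k) ≤ 1 - (ν p : ℝ) / p := by
    intro p hp
    have hpp : p.Prime := (mem_filter.mp hp).2
    have hp0 : (0 : ℝ) < p := by exact_mod_cast hpp.pos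
    obtain ⟨h1, h2⟩ := hν p hpp
    simp only [hg]
    split_ifs with h3
    · have h4 : (1 - 1 / (p : ℝ)) ^ (2 * k) ≤ 1 := pow_le_one₀ (fac_nonneg hpp) (fac_le p)
      have h5 : 1 / (2 * k : ℝ) ≤ 1 / (p : ℝ) := by
        apply one_div_le_one_div_of_le hp0
        exact_mod_cast h3.le
      have h6 : 1 / (p : ℝ) ≤ 1 - (ν p : ℝ) / p := by
        have : (ν p : ℝ) + 1 ≤ p := by exact_mod_cast h2
        rw [le_sub_iff_add_le, ← add_div, div_le_one hp0]
        linarith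
      calc 1 / (2 * k : ℝ) * (1 - 1 / (p : ℝ)) ^ (2 * k) ≤ 1 / (2 * k : ℝ) * 1 :=
            mul_le_mul_of_nonneg_left h4 (by positivity)
        _ ≤ _ := by linarith
    · rw [one_mul]
      refine (fac_pow hk (by omega)).trans ?_
      have : (ν p : ℝ) / p ≤ k / p := div_le_div_of_nonneg_right (by exact_mod_cast h1) hp0.le
      linarith
  have hg1 : (1 / (2 * k : ℝ)) ^ (2 * k) ≤ ∏ p ∈ Pool.Agent.H373R2.T7.pz y, g p := by
    rw [prod_ite, prod_const_one, mul_one, prod_const]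
    apply pow_le_pow_of_le_one (by positivity)
    · rw [div_le_one (by linarith)]
      exact h2k
    · refine (card_le_card (t := range (2 * k)) ?_).trans (card_range _).le
      intro p hp
      rw [mem_filter] at hp
      exact mem_range.mpr hp.2
  have hg0 : ∀ p, 0 ≤ g p := by
    intro p
    simp only [hg]
    split_ifs <;> positivity
  have hVy : ∏ p ∈ Pool.Agent.H373R2.T7.pz y, (1 - 1 / (p : ℝ)) ^ (2 * k) = V y ^ (2 * k) := by
    rw [prod_pow]
    rfl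
  calc (1 / (2 * k : ℝ)) ^ (2 * k) * c ^ (2 * k) / Real.log y ^ (2 * k) =
        (1 / (2 * k : ℝ)) ^ (2 * k) * (c / Real.log y) ^ (2 * k) := by rw [div_pow]; ring
    _ ≤ (1 / (2 * k : ℝ)) ^ (2 * k) * V y ^ (2 * k) :=
        mul_le_mul_of_nonneg_left (pow_le_pow_left₀ (by positivity) (hV y hy) _) (by positivity)
    _ ≤ (∏ p ∈ Pool.Agent.H373R2.T7.pz y, g p) * V y ^ (2 * k) :=
        mul_le_mul_of_nonneg_right hg1 (pow_nonneg (V_nonneg _) _)
    _ = ∏ p ∈ Pool.Agent.H373R2.T7.pz y, g p * (1 - 1 / (p : ℝ)) ^ (2 * k) := by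
        rw [prod_mul_distrib, hVy]
    _ ≤ _ := prod_le_prod (fun p hp => mul_nonneg (hg0 p)
        (pow_nonneg (fac_nonneg (mem_filter.mp hp).2) _)) hfac

/-- the admissible families of sets of classes -/
structure Adm {F : Finset Nat.Primes} (k : ℕ) (p : {x // x ∈ F})
    (Φ : ℕ → Finset (ZMod ((p : Nat.Primes) : ℕ))) : Prop where
  per : ∀ j, Φ j = Φ (j % ((p : Nat.Primes) : ℕ))
  card : ∀ j, (Φ j).card ≤ k
  few : ∀ r, ((range ((p : Nat.Primes) : ℕ)).filter (fun j => r ∈ Φ j)).card ≤ k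
  sol : ∀ r, ∃ j, r ∉ Φ j

open Classical in
/-- the lower bound sieve -/
theorem small_lowK (k : ℕ) (hk : 1 ≤ k) : ∃ ζ : ℝ, 0 < ζ ∧ ζ ≤ 1 ∧ ∃ J0 : ℕ, ∀ J : ℕ, J0 ≤ J →
    ∀ (F : Finset Nat.Primes) (K : Finset {x // x ∈ F})
      (Φ : (p : {x // x ∈ F}) → ℕ → Finset (ZMod ((p : Nat.Primes) : ℕ))),
      (∀ p ∈ K, Adm k p (Φ p) ∧ (((p : Nat.Primes) : ℕ) : ℝ) < (J : ℝ) ^ ζ) →
      ∀ a : (p : {x // x ∈ F}) → ZMod ((p : Nat.Primes) : ℕ),
        (J : ℝ) ^ (1 - ζ / 2) ≤ ((survK (Icc 1 J) Φ K a).card : ℝ) := by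
  obtain ⟨K1, x0, hK1, hsys⟩ := Pool.Agent.H373R2.T7.sys_fund k hk (1 / 2) (by norm_num)
  obtain ⟨c, hc, hprod⟩ := prod_low k hk
  have hK1' : (1 : ℝ) ≤ K1 := by exact_mod_cast hK1
  set ζ : ℝ := 1 / K1 with hζ
  have hζ0 : 0 < ζ := by positivity
  have hζ1 : ζ ≤ 1 := by rw [hζ, div_le_one (by linarith)]; exact hK1'
  have hev : ∀ᶠ J : ℕ in atTop, (x0 : ℝ) + 3 ≤ (J : ℝ) ^ ζ ∧
      (J : ℝ) ^ (1 - ζ / 2) + (J : ℝ) ^ (1 / 2 : ℝ) ≤ J * (c / 2 / Real.log J ^ (2 * k)) := by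
    have t1 : Tendsto (fun J : ℕ => (J : ℝ) ^ ζ) atTop atTop :=
      (tendsto_rpow_atTop hζ0).comp tendsto_natCast_atTop_atTop
    have t2 : ∀ᶠ J : ℕ in atTop, Real.log J ^ (2 * k) ≤ c / 4 * (J : ℝ) ^ (ζ / 4) := by
      have h1 := (isLittleO_log_rpow_rpow_atTop (2 * k : ℝ) (show 0 < ζ / 4 by positivity)).bound
        (show (0 : ℝ) < c / 4 by positivity)
      have h2 := tendsto_natCast_atTop_atTop.eventually h1
      filter_upwards [h2, eventually_ge_atTop 3] with J hJ hJ3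
      have hl : 0 ≤ Real.log (J : ℝ) := Real.log_nonneg (by exact_mod_cast (by omega : 1 ≤ J))
      rw [Real.norm_of_nonneg (by positivity), Real.norm_of_nonneg (by positivity)] at hJ
      have : Real.log (J : ℝ) ^ (2 * k : ℝ) = Real.log (J : ℝ) ^ (2 * k) := by
        rw [← Real.rpow_natCast]
        push_cast
        rfl
      rwa [this] at hJ
    filter_upwards [t1.eventually_ge_atTop ((x0 : ℝ) + 3), t2, eventually_ge_atTop 3] with J h1 h2 h3
    have hJ1 : (1 : ℝ) < J := by exact_mod_cast (by omega : 1 < J)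
    have hJ0 : (0 : ℝ) < J := by linarith
    have hl : 0 < Real.log (J : ℝ) := Real.log_pos hJ1
    refine ⟨h1, ?_⟩
    have e1 : (J : ℝ) ^ (1 / 2 : ℝ) ≤ (J : ℝ) ^ (1 - ζ / 2) :=
      Real.rpow_le_rpow_of_exponent_le hJ1.le (by linarith)
    have e2 : 2 * (J : ℝ) ^ (1 - ζ / 2) ≤ J * (c / 2 / Real.log J ^ (2 * k)) := by
      rw [div_eq_mul_inv (c / 2), ← mul_assoc, ← div_eq_mul_inv, le_div_iff₀ (by positivity)]
      calc 2 * (J : ℝ) ^ (1 - ζ / 2) * Real.log J ^ (2 * k) ≤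
            2 * (J : ℝ) ^ (1 - ζ / 2) * (c / 4 * (J : ℝ) ^ (ζ / 4)) :=
            mul_le_mul_of_nonneg_left h2 (by positivity)
        _ = c / 2 * (J : ℝ) ^ (1 - ζ / 4) := by
            have : (J : ℝ) ^ (1 - ζ / 4) = (J : ℝ) ^ (1 - ζ / 2) * (J : ℝ) ^ (ζ / 4) := by
              rw [← Real.rpow_add hJ0]; congr 1; ring
            rw [this]; ring
        _ ≤ c / 2 * (J : ℝ) ^ (1 : ℝ) := by
            apply mul_le_mul_of_nonneg_left _ (by positivity)
            exact Real.rpow_le_rpow_of_exponent_le hJ1.le (by linarith)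
        _ = J * (c / 2) := by rw [Real.rpow_one]; ring
    linarith
  obtain ⟨J0, hJ0⟩ := eventually_atTop.mp hev
  refine ⟨ζ, hζ0, hζ1, J0, fun J hJ F K Φ hK a => ?_⟩
  obtain ⟨hJ1, hJ2⟩ := hJ0 J hJ
  set y : ℕ := ⌊(J : ℝ) ^ ζ⌋₊ with hy
  have hyx : x0 ≤ y := Nat.le_floor (by linarith)
  have hy2 : 2 ≤ y := Nat.le_floor (by
    have : (0 : ℝ) ≤ x0 := Nat.cast_nonneg _
    push_cast
    linarith)
  have hyJ : (y : ℝ) ≤ (J : ℝ) ^ ζ := Nat.floor_le (by positivity)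
  have hJpos : (1 : ℝ) ≤ J := by
    by_contra hcon
    have : (J : ℝ) = 0 := by
      have : J < 1 := by exact_mod_cast not_le.mp hcon
      exact_mod_cast (by omega : J = 0)
    rw [this, Real.zero_rpow hζ0.ne'] at hJ1
    have : (0 : ℝ) ≤ x0 := Nat.cast_nonneg _
    linarith
  have hyK : y ^ K1 ≤ J := by
    have h1 : (y : ℝ) ^ K1 ≤ J := by
      calc (y : ℝ) ^ K1 ≤ ((J : ℝ) ^ ζ) ^ K1 := pow_le_pow_left₀ (Nat.cast_nonneg _) hyJ _
        _ = J := by
          rw [← Real.rpow_natCast, ← Real.rpow_mul (by linarith), hζ, one_div_mul_cancel (by linarith),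
            Real.rpow_one]
    exact_mod_cast h1
  have hyle : (y : ℝ) ≤ J := by
    refine hyJ.trans ?_
    calc (J : ℝ) ^ ζ ≤ (J : ℝ) ^ (1 : ℝ) := Real.rpow_le_rpow_of_exponent_le hJpos hζ1
      _ = J := Real.rpow_one _
  -- the conditions
  set Q : ℕ → ℕ → Prop := fun p n => ∃ q ∈ K, ((q : Nat.Primes) : ℕ) = p ∧ a q ∈ Φ q n with hQ
  have hPer : Pool.Agent.H373R2.T7.PerB Q k := by
    refine ⟨fun p n => ?_, fun p hp => ?_⟩
    · simp only [hQ]
      refine exists_congr fun q => and_congr_right fun hq => and_congr_right fun hqp => ?_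
      subst hqp
      rw [← (hK q hq).1.per n]
    · unfold Pool.Agent.H373R2.T7.nuB
      by_cases hex : ∃ q ∈ K, ((q : Nat.Primes) : ℕ) = p
      · obtain ⟨q, hq, hqp⟩ := hex
        refine le_trans (card_le_card ?_) ((hK q hq).1.few (a q))
        intro r hr
        obtain ⟨h1, q', hq', hqp', h2⟩ := mf'.mp hr
        have : q' = q := Subtype.ext (Subtype.ext (hqp'.trans hqp.symm))
        subst this
        exact mf'.mpr ⟨by rw [hqp]; exact h1, h2⟩
      · rw [card_eq_zero.mpr]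
        · omega
        · apply eq_empty_of_forall_notMem
          intro r hr
          obtain ⟨-, q, hq, hqp, -⟩ := mf'.mp hr
          exact hex ⟨q, hq, hqp⟩
  have hlt : ∀ p : ℕ, p.Prime → Pool.Agent.H373R2.T7.nuB Q p ≤ k ∧ Pool.Agent.H373R2.T7.nuB Q p < p := by
    intro p hp
    refine ⟨hPer.few p hp, ?_⟩
    unfold Pool.Agent.H373R2.T7.nuB
    have hex : ∃ j ∈ range p, ¬ Q p j := by
      by_cases hex : ∃ q ∈ K, ((q : Nat.Primes) : ℕ) = p
      · obtain ⟨q, hq, hqp⟩ := hex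
        obtain ⟨j, hj⟩ := (hK q hq).1.sol (a q)
        refine ⟨j % p, mem_range.mpr (Nat.mod_lt _ hp.pos), ?_⟩
        rintro ⟨q', hq', hqp', h2⟩
        have : q' = q := Subtype.ext (Subtype.ext (hqp'.trans hqp.symm))
        subst this
        apply hj
        subst hqp
        rw [(hK q' hq).1.per j]
        exact h2
      · exact ⟨0, mem_range.mpr hp.pos, fun ⟨q, hq, hqp, _⟩ => hex ⟨q, hq, hqp⟩⟩
    obtain ⟨j, hj, hjQ⟩ := hex
    refine lt_of_lt_of_eq (card_lt_card ⟨fun n hn => (mf'.mp hn).1, fun hsub => ?_⟩) (card_range p)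
    exact hjQ (mf'.mp (hsub hj)).2
  have h2 := hprod y hy2 (Pool.Agent.H373R2.T7.nuB Q) hlt
  set P : ℝ := ∏ p ∈ Pool.Agent.H373R2.T7.pz y, (1 - (Pool.Agent.H373R2.T7.nuB Q p : ℝ) / p) with hP
  obtain ⟨N, h3, h1⟩ : ∃ N : ℝ, N ≤ ((survK (Icc 1 J) Φ K a).card : ℝ) ∧
      |N - J * P| ≤ 1 / 2 * (J * P) + √(J : ℝ) := by
    refine ⟨_, ?_, hsys J y hyx hyK Q hPer J⟩
    rw [Nat.cast_le]
    apply card_le_card
    intro n hn
    have hn' := mf'.mp hn
    refine mf'.mpr ⟨hn'.1, fun q hq hqa => ?_⟩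
    refine hn'.2 ((q : Nat.Primes) : ℕ) ?_ ⟨q, hq, rfl, hqa⟩
    unfold Pool.Agent.H373R2.T7.pz
    rw [mem_filter, mem_Icc]
    exact ⟨⟨(q : Nat.Primes).2.one_lt.le, Nat.le_floor (hK q hq).2.le⟩, (q : Nat.Primes).2⟩
  refine le_trans ?_ h3
  have h4 := (abs_le.mp h1).1
  have hlogy : 0 < Real.log y := Real.log_pos (by exact_mod_cast (by omega : 1 < y))
  have h5 : c / Real.log J ^ (2 * k) ≤ P := by
    refine le_trans ?_ h2
    apply div_le_div_of_nonneg_left hc.le (by positivity)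
    apply pow_le_pow_left₀ hlogy.le
    exact Real.log_le_log (by exact_mod_cast (by omega : 0 < y)) hyle
  have h6 : (J : ℝ) * (c / 2 / Real.log J ^ (2 * k)) ≤ 1 / 2 * (J * P) := by
    have : (J : ℝ) * (c / 2 / Real.log J ^ (2 * k)) = 1 / 2 * (J * (c / Real.log J ^ (2 * k))) := by ring
    rw [this]
    have := mul_le_mul_of_nonneg_left h5 (by linarith : (0 : ℝ) ≤ J)
    linarith
  have h7 : √(J : ℝ) = (J : ℝ) ^ (1 / 2 : ℝ) := Real.sqrt_eq_rpow _
  rw [h7] at h4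
  linarith

end Pool.Agent.W2helper64.RK
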