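import Pool.Agent.W2helper64.RK.Engine
import Pool.Agent.W2helper64.RS.Main

set_option autoImplicit false
set_option linter.unusedSectionVars false

/-!
Systems of polynomials: the killed candidates.
-/

namespace Pool.Agent.W2helper64.RK

open Finset Filter Topology Polynomial MeasureTheory Pool.Agent.W2helper64.RS

instance countZX : Countable ℤ[X] := by
  rw [← Cardinal.mk_le_aleph0_iff]
  refine (Polynomial.cardinalMk_le_max (R := ℤ)).trans ?_
  simp

/-- the value modulo `p` -/
noncomputable def val {g : ℕ} (f : Fin g → ℤ[X]) (p : ℕ) (i : Fin g) (z : ZMod p) : ZMod p :=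
  ((f i).map (Int.castRingHom (ZMod p))).eval z

theorem val_nat {g : ℕ} (f : Fin g → ℤ[X]) (p : ℕ) (i : Fin g) (n : ℕ) :
    val f p i (n : ZMod p) = (((f i).eval (n : ℤ) : ℤ) : ZMod p) := by
  unfold val
  rw [Polynomial.eval_natCast_map]
  rfl

theorem val_int {g : ℕ} (f : Fin g → ℤ[X]) (p : ℕ) (i : Fin g) (n : ℤ) :
    val f p i (n : ZMod p) = (((f i).eval n : ℤ) : ZMod p) := by
  unfold val
  rw [Polynomial.eval_intCast_map]
  rfl

open Classical in
/-- the dangerous classes of the candidate `x + j` -/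
noncomputable def Phi {g : ℕ} (f : Fin g → ℤ[X]) (x : ℕ) (p : Nat.Primes) (j : ℕ) :
    Finset (ZMod (p : ℕ)) :=
  (univ.image fun i => val f p i ((x + j : ℕ) : ZMod (p : ℕ))).filter fun r =>
    ∃ z : ZMod (p : ℕ), ∀ i, val f p i z ≠ r

theorem mem_Phi {g : ℕ} {f : Fin g → ℤ[X]} {x : ℕ} {p : Nat.Primes} {j : ℕ} {r : ZMod (p : ℕ)} :
    r ∈ Phi f x p j ↔ (∃ i, val f p i ((x + j : ℕ) : ZMod (p : ℕ)) = r) ∧
      ∃ z : ZMod (p : ℕ), ∀ i, val f p i z ≠ r := by
  classical
  unfold Phi
  rw [Finset.mem_filter, Finset.mem_image]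
  simp only [Finset.mem_univ, true_and]

theorem adm_Phi {g k : ℕ} {f : Fin g → ℤ[X]} (hf : ∀ i, 0 < (f i).natDegree)
    (hk : ∑ i, (f i).natDegree ≤ k) (x : ℕ) {F : Finset Nat.Primes} (p : {x // x ∈ F}) :
    Adm k p (Phi f x p) := by
  classical
  refine ⟨fun j => ?_, fun j => ?_, fun r => ?_, fun r => ?_⟩
  · ext r
    rw [mem_Phi, mem_Phi]
    have : ((x + j : ℕ) : ZMod ((p : Nat.Primes) : ℕ)) =
        ((x + j % ((p : Nat.Primes) : ℕ) : ℕ) : ZMod ((p : Nat.Primes) : ℕ)) := by
      push_cast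
      rw [ZMod.natCast_mod]
    rw [this]
  · unfold Phi
    refine (card_filter_le _ _).trans (card_image_le.trans ?_)
    rw [card_univ, Fintype.card_fin]
    refine le_trans ?_ hk
    calc g = ∑ _i : Fin g, 1 := by simp
      _ ≤ ∑ i, (f i).natDegree := sum_le_sum fun i _ => hf i
  · by_cases hs : ∃ z : ZMod ((p : Nat.Primes) : ℕ), ∀ i, val f ((p : Nat.Primes) : ℕ) i z ≠ r
    · obtain ⟨z, hz⟩ := hs
      have h1 : (range ((p : Nat.Primes) : ℕ)).filter (fun j => r ∈ Phi f x p j) ⊆
          univ.biUnion fun i : Fin g => (range ((p : Nat.Primes) : ℕ)).filter fun j : ℕ =>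
            val f ((p : Nat.Primes) : ℕ) i ((x + j : ℕ) : ZMod ((p : Nat.Primes) : ℕ)) = r := by
        intro j hj
        rw [Finset.mem_filter, mem_Phi] at hj
        obtain ⟨hj1, ⟨i, hi⟩, -⟩ := hj
        rw [mem_biUnion]
        exact ⟨i, mem_univ _, Finset.mem_filter.mpr ⟨hj1, hi⟩⟩
      refine (card_le_card h1).trans (card_biUnion_le.trans (le_trans (sum_le_sum fun i _ => ?_) hk))
      -- the roots
      set P : (ZMod ((p : Nat.Primes) : ℕ))[X] :=
        (f i).map (Int.castRingHom (ZMod ((p : Nat.Primes) : ℕ))) - C r with hP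
      have hP0 : P ≠ 0 := by
        intro h0
        apply hz i
        have : P.eval z = 0 := by rw [h0, eval_zero]
        rw [hP, eval_sub, eval_C, sub_eq_zero] at this
        exact this
      have hdeg : P.natDegree ≤ (f i).natDegree := by
        rw [hP, natDegree_sub_C]
        exact natDegree_map_le
      calc ((range ((p : Nat.Primes) : ℕ)).filter fun j : ℕ =>
            val f ((p : Nat.Primes) : ℕ) i ((x + j : ℕ) : ZMod ((p : Nat.Primes) : ℕ)) = r).card ≤
            P.roots.toFinset.card := by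
            refine card_le_card_of_injOn (fun j => ((x + j : ℕ) : ZMod ((p : Nat.Primes) : ℕ))) ?_ ?_
            · intro j hj
              rw [mem_coe, Finset.mem_filter] at hj
              rw [mem_coe, Multiset.mem_toFinset, mem_roots hP0, IsRoot.def, hP, eval_sub, eval_C, sub_eq_zero]
              exact hj.2
            · intro j hj l hl hjl
              rw [mem_coe, Finset.mem_filter, mem_range] at hj hl
              have h2 : ((j : ℕ) : ZMod ((p : Nat.Primes) : ℕ)) = ((l : ℕ) : ZMod ((p : Nat.Primes) : ℕ)) := by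
                have : (((x + j : ℕ) : ZMod ((p : Nat.Primes) : ℕ))) = ((x + l : ℕ) : ZMod ((p : Nat.Primes) : ℕ)) := hjl
                push_cast at this
                exact add_left_cancel this
              rw [ZMod.natCast_eq_natCast_iff] at h2
              have h3 : j % ((p : Nat.Primes) : ℕ) = l % ((p : Nat.Primes) : ℕ) := h2
              rwa [Nat.mod_eq_of_lt hj.1, Nat.mod_eq_of_lt hl.1] at h3
        _ ≤ P.roots.card := Multiset.toFinset_card_le _
        _ ≤ P.natDegree := card_roots' _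
        _ ≤ (f i).natDegree := hdeg
    · rw [card_eq_zero.mpr]
      · omega
      · apply eq_empty_of_forall_notMem
        intro j hj
        rw [Finset.mem_filter, mem_Phi] at hj
        exact hs hj.2.2
  · by_cases hs : ∃ z : ZMod ((p : Nat.Primes) : ℕ), ∀ i, val f ((p : Nat.Primes) : ℕ) i z ≠ r
    · obtain ⟨z, hz⟩ := hs
      refine ⟨(z - (x : ZMod ((p : Nat.Primes) : ℕ))).val, fun h => ?_⟩
      rw [mem_Phi] at h
      obtain ⟨⟨i, hi⟩, -⟩ := h
      apply hz i
      rw [← hi]
      congr 1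
      push_cast
      rw [ZMod.natCast_val, ZMod.cast_id', id]
      ring
    · exact ⟨0, fun h => hs (mem_Phi.mp h).2⟩

/-- the size of the values -/
theorem poly_size (f : ℤ[X]) {k : ℕ} (hf : 0 < f.natDegree) (hl : 0 < f.leadingCoeff) (hk : f.natDegree ≤ k) :
    ∀ᶠ n : ℕ in atTop, 8 ≤ f.eval (n : ℤ) ∧ f.eval (n : ℤ) ≤ (n : ℤ) ^ (k + 1) := by
  set P : ℝ[X] := f.map (Int.castRingHom ℝ) with hP
  have hev : ∀ n : ℕ, P.eval (n : ℝ) = ((f.eval (n : ℤ) : ℤ) : ℝ) := by
    intro n
    rw [hP, Polynomial.eval_natCast_map]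
    rfl
  have hinj : Function.Injective (Int.castRingHom ℝ) := Int.cast_injective
  have hdeg : P.natDegree = f.natDegree := natDegree_map_eq_of_injective hinj f
  have hlead : P.leadingCoeff = (f.leadingCoeff : ℝ) := by
    rw [hP, leadingCoeff_map_of_injective hinj]
    rfl
  have hdeg0 : 0 < P.degree := by
    rw [← natDegree_pos_iff_degree_pos, hdeg]
    exact hf
  have h1 : Tendsto (fun n : ℕ => P.eval (n : ℝ)) atTop atTop :=
    (tendsto_atTop_of_leadingCoeff_nonneg P hdeg0 (by rw [hlead]; exact_mod_cast hl.le)).comp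
      tendsto_natCast_atTop_atTop
  have h2 : Tendsto (fun n : ℕ => P.eval (n : ℝ) / (X ^ (k + 1) : ℝ[X]).eval (n : ℝ)) atTop (𝓝 0) := by
    refine (div_tendsto_atTop_zero_of_degree_lt P (X ^ (k + 1)) ?_).comp tendsto_natCast_atTop_atTop
    rw [degree_X_pow]
    refine lt_of_le_of_lt degree_le_natDegree ?_
    rw [hdeg]
    exact_mod_cast (by omega : f.natDegree < k + 1)
  filter_upwards [h1.eventually_ge_atTop 8, h2.eventually (gt_mem_nhds (show (0 : ℝ) < 1 by norm_num)),
    eventually_ge_atTop 1] with n hn1 hn2 hn3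
  rw [hev] at hn1
  refine ⟨by exact_mod_cast hn1, ?_⟩
  have hn0 : (0 : ℝ) < n := by exact_mod_cast hn3
  rw [eval_pow, eval_X, div_lt_one (by positivity), hev] at hn2
  exact_mod_cast hn2.le

end Pool.Agent.W2helper64.RK
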