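import Pool.Agent.W2helper64.RK.Gold
import Mathlib.RingTheory.Polynomial.Nilpotent
import Mathlib.Algebra.Polynomial.Roots

set_option autoImplicit false
set_option linter.unusedSectionVars false

/-!
Sums of a power and an element of the random set.
-/

namespace Pool.Agent.W2helper64.RK

open Finset Filter Topology MeasureTheory Pool.Agent.W2helper64.RS

/-- the dangerous class for the summand `(y + j) ^ k` of `N` -/
def PhiP (k N y : ℕ) (p : Nat.Primes) (j : ℕ) : Finset (ZMod (p : ℕ)) :=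
  {(N : ZMod (p : ℕ)) - ((y + j : ℕ) : ZMod (p : ℕ)) ^ k}

theorem adm_PhiP {k : ℕ} (hk : 1 ≤ k) (N y : ℕ) {F : Finset Nat.Primes} (p : {x // x ∈ F}) :
    Adm k p (PhiP k N y p) := by
  classical
  have : NeZero ((p : Nat.Primes) : ℕ) := ⟨(p : Nat.Primes).2.ne_zero⟩
  have hF : Fact ((p : Nat.Primes) : ℕ).Prime := ⟨(p : Nat.Primes).2⟩
  have hp2 := (p : Nat.Primes).2.two_le
  refine ⟨fun j => ?_, fun j => ?_, fun r => ?_, fun r => ?_⟩
  · unfold PhiP
    have : ((y + j : ℕ) : ZMod ((p : Nat.Primes) : ℕ)) =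
        ((y + j % ((p : Nat.Primes) : ℕ) : ℕ) : ZMod ((p : Nat.Primes) : ℕ)) := by
      push_cast
      rw [ZMod.natCast_mod]
    rw [this]
  · unfold PhiP
    rw [card_singleton]
    exact hk
  · have h1 : ((range ((p : Nat.Primes) : ℕ)).filter (fun j => r ∈ PhiP k N y p j)).card ≤
        (Polynomial.nthRoots k ((N : ZMod ((p : Nat.Primes) : ℕ)) - r)).toFinset.card := by
      refine Finset.card_le_card_of_injOn (fun j => ((y + j : ℕ) : ZMod ((p : Nat.Primes) : ℕ))) ?_ ?_
      · intro j hj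
        rw [Finset.mem_coe, Finset.mem_filter] at hj
        have h2 := hj.2
        unfold PhiP at h2
        rw [mem_singleton] at h2
        rw [Finset.mem_coe, Multiset.mem_toFinset, Polynomial.mem_nthRoots (by omega)]
        rw [h2]
        ring
      · intro i hi j hj hij
        rw [Finset.mem_coe, Finset.mem_filter, mem_range] at hi hj
        refine natCast_inj hi.1 hj.1 ?_
        simp only at hij
        push_cast at hij
        exact add_left_cancel hij
    refine h1.trans ((Multiset.toFinset_card_le _).trans (Polynomial.card_nthRoots _ _))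
  · by_contra hcon
    push Not at hcon
    have key : ∀ z : ZMod ((p : Nat.Primes) : ℕ), z ^ k = (N : ZMod ((p : Nat.Primes) : ℕ)) - r := by
      intro z
      set j : ℕ := (z - (y : ZMod ((p : Nat.Primes) : ℕ))).val with hj
      have h1 := hcon j
      unfold PhiP at h1
      rw [mem_singleton, hj] at h1
      push_cast at h1
      rw [ZMod.natCast_val, ZMod.cast_id', id, add_sub_cancel] at h1
      rw [h1]
      ring
    have h0 := key 0
    have h1 := key 1
    rw [zero_pow (by omega), ← h1, one_pow] at h0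
    exact zero_ne_one h0

theorem ae_pow (k : ℕ) (hk : 1 ≤ k) : ∃ C : ℝ, 2 ≤ C ∧ ∀ᵐ a ∂law, ∀ᶠ N : ℕ in atTop, ∀ y : ℕ,
    ((y : ℝ) + Real.log N ^ C) ^ k + 8 ≤ N →
      ∃ m : ℕ, y < m ∧ (m : ℝ) ≤ y + Real.log N ^ C ∧ m ^ k ≤ N ∧ N - m ^ k ∈ R a := by
  obtain ⟨C, hC, hE⟩ := law_engine k hk
  refine ⟨C, hC, ?_⟩
  have hlog : Tendsto (fun x : ℕ => Real.log (x : ℝ)) atTop atTop :=
    Real.tendsto_log_atTop.comp tendsto_natCast_atTop_atTop
  have hb := bc (fun N : ℕ => ⋃ y ∈ (range (N + 1) : Finset ℕ),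
      {a | Bad (PX (1 * Real.log N)) (PhiP k N y) ⌊Real.log N ^ C⌋₊ a}) 2 (by norm_num) (by
    filter_upwards [hlog.eventually (hE 1 le_rfl), eventually_ge_atTop 1] with N hx hN1
    have hN0 : (1 : ℝ) ≤ N := by exact_mod_cast hN1
    calc law (⋃ y ∈ range (N + 1), {a | Bad (PX (1 * Real.log N)) (PhiP k N y) ⌊Real.log N ^ C⌋₊ a})
        ≤ ∑ y ∈ range (N + 1), law {a | Bad (PX (1 * Real.log N)) (PhiP k N y) ⌊Real.log N ^ C⌋₊ a} :=
          measure_biUnion_finset_le _ _
      _ ≤ ∑ y ∈ range (N + 1), ENNReal.ofReal (Real.exp (-(4 * Real.log N))) :=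
          Finset.sum_le_sum fun y _ => hx (PhiP k N y) (fun p => adm_PhiP hk N y p)
      _ = ENNReal.ofReal ((N + 1 : ℕ) * Real.exp (-(4 * Real.log N))) := by
          rw [sum_const, nsmul_eq_mul, card_range,
            ENNReal.ofReal_mul (by positivity), ENNReal.ofReal_natCast]
      _ ≤ _ := by
          apply ENNReal.ofReal_le_ofReal
          have h1 : Real.exp (-(4 * Real.log N)) = 1 / (N : ℝ) ^ 4 := by
            rw [Real.exp_neg, one_div]
            congr 1
            rw [← Real.exp_log (by linarith : (0 : ℝ) < N), Real.log_exp, ← Real.exp_nat_mul]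
            norm_num
          rw [h1]
          push_cast
          rw [mul_one_div, mul_one_div, div_le_div_iff₀ (by positivity) (by positivity)]
          have h2 : ((N : ℝ) + 1) ≤ 2 * N := by linarith
          have h3 : (N : ℝ) ≤ N ^ 2 := by nlinarith
          calc ((N : ℝ) + 1) * N ^ 2 ≤ 2 * N * N ^ 2 := mul_le_mul_of_nonneg_right h2 (by positivity)
            _ ≤ 2 * N ^ 2 * N ^ 2 := by
                apply mul_le_mul_of_nonneg_right _ (by positivity)
                linarith
            _ = 2 * N ^ 4 := by ring)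
  filter_upwards [hb] with a ha
  filter_upwards [ha, eventually_ge_atTop 3] with N hN hN3 y hyN
  have hl : 0 ≤ Real.log (N : ℝ) := Real.log_nonneg (by exact_mod_cast (by omega : 1 ≤ N))
  have hlC : 0 ≤ Real.log (N : ℝ) ^ C := Real.rpow_nonneg hl _
  have hy0 : (0 : ℝ) ≤ y := Nat.cast_nonneg _
  have hyN' : y ≤ N := by
    have h1 : (y : ℝ) ^ k ≤ ((y : ℝ) + Real.log N ^ C) ^ k := pow_le_pow_left₀ hy0 (by linarith) k
    have h2 : ((y ^ k : ℕ) : ℝ) ≤ N := by push_cast; linarith
    have h3 : y ^ k ≤ N := by exact_mod_cast h2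
    exact (Nat.le_self_pow (by omega) y).trans h3
  have hnb : ¬ Bad (PX (1 * Real.log N)) (PhiP k N y) ⌊Real.log N ^ C⌋₊ a := by
    intro hbad
    apply hN
    simp only [Set.mem_iUnion, exists_prop]
    exact ⟨y, mem_range.mpr (by omega), hbad⟩
  unfold Bad at hnb
  push Not at hnb
  obtain ⟨j, hj, hjn⟩ := hnb
  rw [Finset.mem_Icc] at hj
  have hjle : (j : ℝ) ≤ Real.log N ^ C :=
    (by exact_mod_cast hj.2 : (j : ℝ) ≤ ((⌊Real.log N ^ C⌋₊ : ℕ) : ℝ)).trans (Nat.floor_le (by positivity))
  have hrN : (y + j) ^ k + 8 ≤ N := by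
    have h1 : (((y + j) ^ k + 8 : ℕ) : ℝ) ≤ N := by
      push_cast
      have h2 : ((y : ℝ) + j) ^ k ≤ ((y : ℝ) + Real.log N ^ C) ^ k :=
        pow_le_pow_left₀ (by positivity) (by linarith) k
      linarith
    exact_mod_cast h1
  have e1 : Real.exp 2 ≤ 8 := by
    have : Real.exp 2 = Real.exp 1 * Real.exp 1 := by rw [← Real.exp_add]; norm_num
    rw [this]
    have := Real.exp_one_lt_d9
    have := Real.exp_pos 1
    nlinarith
  have hmem : ∀ s : ℕ, 8 ≤ s → s ≤ N → ∀ p : Nat.Primes, 1 ≤ V (p : ℕ) * Real.log s →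
      p ∈ PX (1 * Real.log N) := by
    intro s hs hsN p hp
    rw [mem_PX, one_mul]
    refine hp.trans (mul_le_mul_of_nonneg_left ?_ (V_nonneg _))
    exact Real.log_le_log (by exact_mod_cast (by omega : 0 < s)) (by exact_mod_cast hsN)
  refine ⟨y + j, by omega, by push_cast; linarith, by omega, ?_, fun p hp heq => ?_⟩
  · exact e1.trans (by exact_mod_cast (by omega : 8 ≤ N - (y + j) ^ k))
  · refine hjn p (hmem _ (by omega) (by omega) p hp) ?_
    unfold PhiP
    rw [← heq, Nat.cast_sub (by omega), mem_singleton, Nat.cast_pow]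

end Pool.Agent.W2helper64.RK
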