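import Pool.Agent.W2helper64.RS.Fin

set_option autoImplicit false
set_option linter.unusedSectionVars false

/-!
Candidates which are killed by several classes: one prime, and many primes.
-/

namespace Pool.Agent.W2helper64.RK

open Finset Pool.Agent.W2helper64.RS

/-- one prime: every residue class kills at most `d` candidates, every candidate is killed by at most
`k` classes -/
theorem stepK {β : Type} [Fintype β] [Nonempty β] [DecidableEq β] (S : Finset ℕ) (Φ : ℕ → Finset β)
    {k : ℕ} {d v : ℝ} (hk : ∀ j ∈ S, (Φ j).card ≤ k)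
    (hd : ∀ r, ((S.filter (fun j => r ∈ Φ j)).card : ℝ) ≤ d) (hv : 0 ≤ v) (hvd : v * d ≤ 1) :
    (∑ r : β, Real.exp (-v * ((S.filter (fun j => r ∉ Φ j)).card : ℝ))) / (Fintype.card β : ℝ) ≤
      Real.exp (-(v * (1 - 2 * k / (Fintype.card β : ℝ))) * (S.card : ℝ)) := by
  have hq : (0 : ℝ) < (Fintype.card β : ℝ) := by exact_mod_cast Fintype.card_pos
  set q : ℝ := (Fintype.card β : ℝ) with hqd
  set N : ℝ := (S.card : ℝ) with hN
  have hsplit : ∀ r : β, ((S.filter (fun j => r ∉ Φ j)).card : ℝ) =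
      N - ((S.filter (fun j => r ∈ Φ j)).card : ℝ) := by
    intro r
    have := card_filter_add_card_filter_not (s := S) (fun j => r ∈ Φ j)
    have h2 : ((S.filter (fun j => r ∈ Φ j)).card : ℝ) + ((S.filter (fun j => ¬ r ∈ Φ j)).card : ℝ) = N := by
      rw [hN]; exact_mod_cast this
    linarith
  have hsum : ∑ r : β, ((S.filter (fun j => r ∈ Φ j)).card : ℝ) ≤ k * N := by
    have h1 : ∑ r : β, (S.filter (fun j => r ∈ Φ j)).card = ∑ j ∈ S, (Φ j).card := by
      simp_rw [card_filter]
      rw [sum_comm]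
      refine sum_congr rfl fun j _ => ?_
      rw [← card_filter]
      congr 1
      ext r
      simp
    have h2 : ∑ j ∈ S, (Φ j).card ≤ S.card * k := by
      have := sum_le_sum hk
      rwa [sum_const, smul_eq_mul] at this
    rw [hN]
    have h3 : ((∑ r : β, (S.filter (fun j => r ∈ Φ j)).card : ℕ) : ℝ) ≤ ((S.card * k : ℕ) : ℝ) := by
      rw [h1]
      exact_mod_cast h2
    push_cast at h3
    linarith
  have h1 : ∀ r : β, Real.exp (-v * ((S.filter (fun j => r ∉ Φ j)).card : ℝ)) ≤
      Real.exp (-v * N) * (1 + 2 * v * ((S.filter (fun j => r ∈ Φ j)).card : ℝ)) := by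
    intro r
    rw [hsplit r]
    set n : ℝ := ((S.filter (fun j => r ∈ Φ j)).card : ℝ) with hn
    have hn0 : 0 ≤ n := Nat.cast_nonneg _
    have hnd := hd r
    have e1 : -v * (N - n) = -v * N + v * n := by ring
    rw [e1, Real.exp_add]
    refine mul_le_mul_of_nonneg_left ?_ (Real.exp_pos _).le
    have hvn0 : 0 ≤ v * n := mul_nonneg hv hn0
    have hvn : v * n ≤ v * d := mul_le_mul_of_nonneg_left hnd hv
    have h2 := exp_le_quad (y := v * n) (by rw [abs_of_nonneg hvn0]; linarith)
    refine h2.trans ?_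
    nlinarith
  rw [div_le_iff₀ hq]
  refine (sum_le_sum fun r _ => h1 r).trans ?_
  rw [← mul_sum, sum_add_distrib, ← mul_sum, sum_const, card_univ, nsmul_eq_mul, mul_one, ← hqd]
  have h4 : -(v * (1 - 2 * k / q)) * N = -v * N + 2 * v * (k * N) / q := by ring
  rw [h4, Real.exp_add, mul_assoc (Real.exp (-v * N))]
  refine mul_le_mul_of_nonneg_left ?_ (Real.exp_pos _).le
  have h5 := Real.add_one_le_exp (2 * v * (k * N) / q)
  have h6 := mul_le_mul_of_nonneg_right h5 hq.le
  have h7 : (2 * v * (k * N) / q + 1) * q = 2 * v * (k * N) + q := by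
    field_simp
  have h8 : 2 * v * ∑ r : β, ((S.filter (fun j => r ∈ Φ j)).card : ℝ) ≤ 2 * v * (k * N) :=
    mul_le_mul_of_nonneg_left hsum (by linarith)
  linarith

section
variable {ι : Type} [Fintype ι] [DecidableEq ι] {α : ι → Type} [∀ i, Fintype (α i)] [∀ i, Nonempty (α i)]
  [∀ i, DecidableEq (α i)]

/-- the candidates of `A` which survive the coordinates in `K` -/
def survK (A : Finset ℕ) (Φ : (i : ι) → ℕ → Finset (α i)) (K : Finset ι) (a : (i : ι) → α i) : Finset ℕ :=
  A.filter fun j => ∀ i ∈ K, a i ∉ Φ i j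

theorem survK_sub (A : Finset ℕ) (Φ : (i : ι) → ℕ → Finset (α i)) (K : Finset ι) (a : (i : ι) → α i) :
    survK A Φ K a ⊆ A := filter_subset _ _

theorem survK_insert (A : Finset ℕ) (Φ : (i : ι) → ℕ → Finset (α i)) (K : Finset ι) (i : ι)
    (a : (i : ι) → α i) :
    survK A Φ (insert i K) a = (survK A Φ K a).filter fun j => a i ∉ Φ i j := by
  ext j
  simp only [survK, mem_filter, mem_insert, forall_eq_or_imp]
  tauto

theorem survK_update (A : Finset ℕ) (Φ : (i : ι) → ℕ → Finset (α i)) (K : Finset ι) (i : ι) (hi : i ∉ K)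
    (a : (i : ι) → α i) (r : α i) : survK A Φ K (Function.update a i r) = survK A Φ K a := by
  unfold survK
  refine filter_congr fun j _ => ?_
  refine forall₂_congr fun k hk => ?_
  have : k ≠ i := fun h => hi (h ▸ hk)
  rw [Function.update_of_ne this]

theorem mm_survK (A : Finset ℕ) (Φ : (i : ι) → ℕ → Finset (α i)) (K : Finset ι) (i : ι) (hi : i ∉ K)
    (F : ℕ → ℝ) (a : (i : ι) → α i) :
    mm i (fun a => F (survK A Φ (insert i K) a).card) a =
      (∑ r : α i, F ((survK A Φ K a).filter (fun j => r ∉ Φ i j)).card) / (Fintype.card (α i) : ℝ) := by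
  unfold mm
  congr 1
  refine sum_congr rfl fun r _ => ?_
  simp only
  rw [survK_insert, survK_update A Φ K i hi, Function.update_self]

theorem phaseK (A : Finset ℕ) (Φ : (i : ι) → ℕ → Finset (α i)) (K0 K : Finset ι) (hd : Disjoint K K0)
    {k : ℕ} {d : ℝ} (hk : ∀ i ∈ K, ∀ j ∈ A, (Φ i j).card ≤ k)
    (hfib : ∀ i ∈ K, ∀ r, ((A.filter (fun j => r ∈ Φ i j)).card : ℝ) ≤ d)
    (hq2 : ∀ i ∈ K, (2 * k : ℝ) ≤ Fintype.card (α i)) {v : ℝ} (hv0 : 0 ≤ v) (hvd : v * d ≤ 1) :
    avg (fun a => Real.exp (-v * ((survK A Φ (K ∪ K0) a).card : ℝ))) ≤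
      avg (fun a => Real.exp (-(v * ∏ i ∈ K, (1 - 2 * k / (Fintype.card (α i) : ℝ))) *
        ((survK A Φ K0 a).card : ℝ))) := by
  induction K using Finset.induction_on generalizing v with
  | empty => simp
  | insert i K hiK ih =>
    have hi0 : i ∉ K0 := fun h => disjoint_left.mp hd (mem_insert_self i K) h
    have hd' : Disjoint K K0 := disjoint_of_subset_left (subset_insert i K) hd
    have hi : i ∉ K ∪ K0 := by
      rw [mem_union]; tauto
    have hq : (2 * k : ℝ) ≤ (Fintype.card (α i) : ℝ) := hq2 i (mem_insert_self i K)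
    have hq0 : (0 : ℝ) < (Fintype.card (α i) : ℝ) := by exact_mod_cast Fintype.card_pos
    have hq1 : 0 ≤ 1 - 2 * k / (Fintype.card (α i) : ℝ) := by
      rw [sub_nonneg, div_le_one hq0]; exact hq
    have hqle : 1 - 2 * k / (Fintype.card (α i) : ℝ) ≤ 1 := by
      have : 0 ≤ 2 * k / (Fintype.card (α i) : ℝ) := by positivity
      linarith
    have hd0 : 0 ≤ d := by
      obtain ⟨r⟩ : Nonempty (α i) := inferInstance
      exact (Nat.cast_nonneg _).trans (hfib i (mem_insert_self i K) r)
    rw [insert_union, ← avg_mm i, prod_insert hiK]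
    have h1 : avg (mm i fun a => Real.exp (-v * ((survK A Φ (insert i (K ∪ K0)) a).card : ℝ))) ≤
        avg (fun a => Real.exp (-(v * (1 - 2 * k / (Fintype.card (α i) : ℝ))) *
          ((survK A Φ (K ∪ K0) a).card : ℝ))) := by
      refine avg_mono fun a => ?_
      rw [mm_survK A Φ (K ∪ K0) i hi (fun n => Real.exp (-v * (n : ℝ)))]
      exact stepK (survK A Φ (K ∪ K0) a) (Φ i) (k := k) (d := d) (v := v)
        (fun j hj => hk i (mem_insert_self i K) j (survK_sub A Φ _ a hj)) (fun r => by
        refine le_trans ?_ (hfib i (mem_insert_self i K) r)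
        exact_mod_cast card_le_card (filter_subset_filter _ (survK_sub A Φ _ a))) hv0 hvd
    have h2 := ih hd' (fun k hk' => hk k (mem_insert_of_mem hk')) (fun k hk => hfib k (mem_insert_of_mem hk))
      (fun k hk => hq2 k (mem_insert_of_mem hk))
      (v := v * (1 - 2 * k / (Fintype.card (α i) : ℝ))) (mul_nonneg hv0 hq1)
      (by
        calc v * (1 - 2 * k / (Fintype.card (α i) : ℝ)) * d ≤ v * 1 * d := by
              refine mul_le_mul_of_nonneg_right ?_ hd0
              exact mul_le_mul_of_nonneg_left hqle hv0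
          _ = v * d := by ring
          _ ≤ 1 := hvd)
    rw [mul_assoc] at h2
    exact h1.trans h2

end

end Pool.Agent.W2helper64.RK
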