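import Pool.Agent.W2helper64.RK.Gold
import Mathlib.Algebra.Polynomial.Roots

set_option autoImplicit false
set_option linter.unusedSectionVars false

/-!
The sums `x + y = n` with `x + n y` and `x ^ 2 + n y ^ 2` in the random set.
-/

namespace Pool.Agent.W2helper64.RK

open Finset Filter Topology MeasureTheory Pool.Agent.W2helper64.RS

/-- the class `r` is hit by `x + n y` or `x ^ 2 + n y ^ 2`, where `x = n - t`, `y = t` -/
def HitS (n : ℕ) (p : Nat.Primes) (t r : ZMod (p : ℕ)) : Prop :=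
  (n : ZMod (p : ℕ)) - t + n * t = r ∨ ((n : ZMod (p : ℕ)) - t) ^ 2 + n * t ^ 2 = r

/-- the class `r` modulo `p` obstructs `n` -/
def Obs (n : ℕ) (p : Nat.Primes) (r : ZMod (p : ℕ)) : Prop := ∀ t : ZMod (p : ℕ), HitS n p t r

open Classical in
/-- the dangerous classes -/
noncomputable def PhiS (n : ℕ) (p : Nat.Primes) (j : ℕ) : Finset (ZMod (p : ℕ)) :=
  ({(n : ZMod (p : ℕ)) - (j : ZMod (p : ℕ)) + n * (j : ZMod (p : ℕ)),
    ((n : ZMod (p : ℕ)) - (j : ZMod (p : ℕ))) ^ 2 + n * (j : ZMod (p : ℕ)) ^ 2} : Finset (ZMod (p : ℕ))).filter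
      fun r => ¬ Obs n p r

theorem mem_PhiS {n : ℕ} {p : Nat.Primes} {j : ℕ} {r : ZMod (p : ℕ)} :
    r ∈ PhiS n p j ↔ HitS n p (j : ZMod (p : ℕ)) r ∧ ¬ Obs n p r := by
  classical
  unfold PhiS HitS
  rw [Finset.mem_filter, mem_insert, mem_singleton]
  constructor
  · rintro ⟨h | h, h2⟩
    · exact ⟨Or.inl h.symm, h2⟩
    · exact ⟨Or.inr h.symm, h2⟩
  · rintro ⟨h | h, h2⟩
    · exact ⟨Or.inl h.symm, h2⟩
    · exact ⟨Or.inr h.symm, h2⟩

open Polynomial in
/-- the number of zeros of a quadratic polynomial -/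
theorem card_quad {F : Type} [Field F] [Fintype F] [DecidableEq F] (A B D : F) (h : ¬ (A = 0 ∧ B = 0 ∧ D = 0)) :
    ((Finset.univ : Finset F).filter fun t => A * t ^ 2 + B * t + D = 0).card ≤ 2 := by
  set q : F[X] := C A * X ^ 2 + C B * X + C D with hq
  have hq0 : q ≠ 0 := by
    intro h0
    apply h
    have e2 : q.coeff 2 = A := by rw [hq]; simp [coeff_X, coeff_C]
    have e1 : q.coeff 1 = B := by rw [hq]; simp [coeff_X, coeff_C, coeff_X_pow]
    have e0 : q.coeff 0 = D := by rw [hq]; simp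
    rw [h0] at e0 e1 e2
    exact ⟨by rw [← e2]; simp, by rw [← e1]; simp, by rw [← e0]; simp⟩
  have hsub : ((Finset.univ : Finset F).filter fun t => A * t ^ 2 + B * t + D = 0) ⊆ q.roots.toFinset := by
    intro t ht
    rw [Finset.mem_filter] at ht
    rw [Multiset.mem_toFinset, mem_roots hq0, IsRoot.def, hq]
    simpa using ht.2
  refine (card_le_card hsub).trans ((Multiset.toFinset_card_le _).trans ((card_roots' q).trans ?_))
  exact natDegree_quadratic_le

theorem adm_PhiS (n : ℕ) {F : Finset Nat.Primes} (p : {x // x ∈ F}) : Adm 4 p (PhiS n p) := by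
  classical
  have : NeZero ((p : Nat.Primes) : ℕ) := ⟨(p : Nat.Primes).2.ne_zero⟩
  have hF : Fact ((p : Nat.Primes) : ℕ).Prime := ⟨(p : Nat.Primes).2⟩
  have hp2 := (p : Nat.Primes).2.two_le
  refine ⟨fun j => ?_, fun j => ?_, fun r => ?_, fun r => ?_⟩
  · unfold PhiS
    have : ((j : ℕ) : ZMod ((p : Nat.Primes) : ℕ)) =
        ((j % ((p : Nat.Primes) : ℕ) : ℕ) : ZMod ((p : Nat.Primes) : ℕ)) := by
      rw [ZMod.natCast_mod]
    rw [this]
  · exact (card_filter_le _ _).trans (card_le_two.trans (by norm_num))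
  · by_cases hobs : Obs n p r
    · have h0 : (range ((p : Nat.Primes) : ℕ)).filter (fun j => r ∈ PhiS n p j) = ∅ := by
        rw [filter_eq_empty_iff]
        intro j _ hj
        exact (mem_PhiS.mp hj).2 hobs
      rw [h0, card_empty]
      norm_num
    · set N : ZMod ((p : Nat.Primes) : ℕ) := (n : ZMod ((p : Nat.Primes) : ℕ)) with hN
      have h1 : ¬ ((0 : ZMod ((p : Nat.Primes) : ℕ)) = 0 ∧ (N - 1) = 0 ∧ N - r = 0) := by
        rintro ⟨-, e1, e2⟩
        apply hobs
        intro t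
        left
        linear_combination t * e1 + e2
      have h2 : ¬ ((N + 1) = 0 ∧ (-2 * N) = 0 ∧ N ^ 2 - r = 0) := by
        rintro ⟨e1, e2, e3⟩
        apply hobs
        intro t
        right
        linear_combination t ^ 2 * e1 + t * e2 + e3
      have k1 := card_quad _ _ _ h1
      have k2 := card_quad _ _ _ h2
      have hcard : ((range ((p : Nat.Primes) : ℕ)).filter (fun j => r ∈ PhiS n p j)).card ≤
          (((Finset.univ : Finset (ZMod ((p : Nat.Primes) : ℕ))).filter fun t => 0 * t ^ 2 + (N - 1) * t + (N - r) = 0) ∪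
            ((Finset.univ : Finset (ZMod ((p : Nat.Primes) : ℕ))).filter fun t =>
              (N + 1) * t ^ 2 + (-2 * N) * t + (N ^ 2 - r) = 0)).card := by
        refine Finset.card_le_card_of_injOn (fun j => ((j : ℕ) : ZMod ((p : Nat.Primes) : ℕ))) ?_ ?_
        · intro j hj
          rw [Finset.mem_coe, Finset.mem_filter] at hj
          rw [Finset.mem_coe, mem_union, Finset.mem_filter, Finset.mem_filter]
          rcases (mem_PhiS.mp hj.2).1 with h | h
          · left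
            refine ⟨mem_univ _, ?_⟩
            linear_combination h
          · right
            refine ⟨mem_univ _, ?_⟩
            linear_combination h
        · intro i hi j hj hij
          rw [Finset.mem_coe, Finset.mem_filter, mem_range] at hi hj
          exact natCast_inj hi.1 hj.1 hij
      refine hcard.trans ((card_union_le _ _).trans ?_)
      omega
  · by_cases hobs : Obs n p r
    · exact ⟨0, fun h => (mem_PhiS.mp h).2 hobs⟩
    · have h1 := hobs
      unfold Obs at h1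
      push Not at h1
      obtain ⟨t, ht⟩ := h1
      refine ⟨t.val, fun h => ht ?_⟩
      have h2 := (mem_PhiS.mp h).1
      rwa [ZMod.natCast_val, ZMod.cast_id', id] at h2

theorem ae_sum : ∃ C : ℝ, 2 ≤ C ∧ ∀ᵐ a ∂law, ∀ᶠ n : ℕ in atTop, (∀ p : Nat.Primes, ¬ Obs n p (a p)) →
    ∃ x y : ℕ, 1 ≤ x ∧ 1 ≤ y ∧ (y : ℝ) ≤ Real.log n ^ C ∧ x + y = n ∧ x + n * y ∈ R a ∧ x ^ 2 + n * y ^ 2 ∈ R a := by
  obtain ⟨C, hC, hE⟩ := law_engine 4 (by norm_num)
  refine ⟨C, hC, ?_⟩
  have hlog : Tendsto (fun x : ℕ => Real.log (x : ℝ)) atTop atTop :=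
    Real.tendsto_log_atTop.comp tendsto_natCast_atTop_atTop
  have hb := bc (fun N : ℕ => {a | Bad (PX (3 * Real.log N)) (PhiS N) ⌊Real.log N ^ C⌋₊ a}) 2 (by norm_num) (by
    filter_upwards [hlog.eventually (hE 3 (by norm_num)), eventually_ge_atTop 1] with N hx hN1
    have hN0 : (1 : ℝ) ≤ N := by exact_mod_cast hN1
    refine (hx (PhiS N) (fun p => adm_PhiS N p)).trans ?_
    apply ENNReal.ofReal_le_ofReal
    have h1 : Real.exp (-(4 * Real.log N)) = 1 / (N : ℝ) ^ 4 := by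
      rw [Real.exp_neg, one_div]
      congr 1
      rw [← Real.exp_log (by linarith : (0 : ℝ) < N), Real.log_exp, ← Real.exp_nat_mul]
      norm_num
    rw [h1, mul_one_div, div_le_div_iff₀ (by positivity) (by positivity)]
    have h3 : (N : ℝ) ^ 2 ≤ N ^ 4 := pow_le_pow_right₀ hN0 (by norm_num)
    nlinarith [pow_nonneg (zero_le_one.trans hN0) 4])
  have hsmall : ∀ᶠ n : ℕ in atTop, Real.log (n : ℝ) ^ C + 1 ≤ n := by
    have e1 := (isLittleO_log_rpow_rpow_atTop C (show (0 : ℝ) < 1 by norm_num)).bound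
        (show (0 : ℝ) < 1 / 2 by norm_num)
    filter_upwards [tendsto_natCast_atTop_atTop.eventually e1, eventually_ge_atTop 16] with n hn hn1
    have hn16 : (16 : ℝ) ≤ n := by exact_mod_cast hn1
    have hl : 0 ≤ Real.log (n : ℝ) := Real.log_natCast_nonneg n
    rw [Real.norm_of_nonneg (by positivity), Real.norm_of_nonneg (by positivity), Real.rpow_one] at hn
    linarith
  filter_upwards [hb] with a ha
  filter_upwards [ha, hsmall, eventually_ge_atTop 16] with n hn hns hn16 hobs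
  have hl : 0 ≤ Real.log (n : ℝ) := Real.log_natCast_nonneg n
  have hlC : 0 ≤ Real.log (n : ℝ) ^ C := Real.rpow_nonneg hl _
  have hnb : ¬ Bad (PX (3 * Real.log n)) (PhiS n) ⌊Real.log n ^ C⌋₊ a := hn
  unfold Bad at hnb
  push Not at hnb
  obtain ⟨j, hj, hjn⟩ := hnb
  rw [Finset.mem_Icc] at hj
  have hjle : (j : ℝ) ≤ Real.log n ^ C :=
    (by exact_mod_cast hj.2 : (j : ℝ) ≤ ((⌊Real.log n ^ C⌋₊ : ℕ) : ℝ)).trans (Nat.floor_le (by positivity))
  have hjn1 : j + 1 ≤ n := by
    have : ((j + 1 : ℕ) : ℝ) ≤ n := by push_cast; linarith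
    exact_mod_cast this
  obtain ⟨x, hx⟩ : ∃ x, x + j = n := ⟨n - j, by omega⟩
  have hxz : ∀ p : Nat.Primes, ((x : ℕ) : ZMod (p : ℕ)) = (n : ZMod (p : ℕ)) - ((j : ℕ) : ZMod (p : ℕ)) := by
    intro p
    rw [← hx]
    push_cast
    ring
  have e1 : Real.exp 2 ≤ 8 := by
    have : Real.exp 2 = Real.exp 1 * Real.exp 1 := by rw [← Real.exp_add]; norm_num
    rw [this]
    have := Real.exp_one_lt_d9
    have := Real.exp_pos 1
    nlinarith
  have hmem : ∀ s : ℕ, 8 ≤ s → s ≤ n ^ 3 → ∀ p : Nat.Primes, 1 ≤ V (p : ℕ) * Real.log s →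
      p ∈ PX (3 * Real.log n) := by
    intro s hs hsN p hp
    rw [mem_PX]
    refine hp.trans (mul_le_mul_of_nonneg_left ?_ (V_nonneg _))
    have h1 : Real.log s ≤ Real.log ((n : ℝ) ^ 3) :=
      Real.log_le_log (by exact_mod_cast (by omega : 0 < s)) (by exact_mod_cast hsN)
    rw [Real.log_pow] at h1
    exact_mod_cast h1
  have hj1 := hj.1
  have hs1 : 8 ≤ x + n * j := by nlinarith
  have hs2 : 8 ≤ x ^ 2 + n * j ^ 2 := by nlinarith [Nat.one_le_pow 2 j hj1]
  have hb1 : x + n * j ≤ n ^ 3 := by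
    have h1 : n * j ≤ n * n := Nat.mul_le_mul_left n (by omega)
    have h2 : x ≤ n := by omega
    have h3 : n ^ 3 = n * n * n := by ring
    nlinarith
  have hb2 : x ^ 2 + n * j ^ 2 ≤ n ^ 3 := by
    have h1 : x ≤ n - 1 := by omega
    have h2 : j ≤ n - 1 := by omega
    have h3 : x ^ 2 ≤ (n - 1) ^ 2 := Nat.pow_le_pow_left h1 2
    have h4 : j ^ 2 ≤ (n - 1) ^ 2 := Nat.pow_le_pow_left h2 2
    obtain ⟨m, hm⟩ : ∃ m, n = m + 1 := ⟨n - 1, by omega⟩
    rw [hm] at h3 h4 ⊢
    simp only [Nat.add_sub_cancel] at h3 h4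
    have h5 : (m + 1) * j ^ 2 ≤ (m + 1) * m ^ 2 := Nat.mul_le_mul_left _ h4
    nlinarith
  refine ⟨x, j, by omega, hj1, hjle, hx, ⟨?_, fun p hp heq => ?_⟩, ⟨?_, fun p hp heq => ?_⟩⟩
  · exact e1.trans (by exact_mod_cast hs1)
  · refine hjn p (hmem _ hs1 hb1 p hp) (mem_PhiS.mpr ⟨Or.inl ?_, hobs p⟩)
    rw [← heq]
    push_cast
    rw [hxz p]
  · exact e1.trans (by exact_mod_cast hs2)
  · refine hjn p (hmem _ hs2 hb2 p hp) (mem_PhiS.mpr ⟨Or.inr ?_, hobs p⟩)
    rw [← heq]
    push_cast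
    rw [hxz p]

end Pool.Agent.W2helper64.RK
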